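import Pool.Agent.K6.H64.VC.Smooth

/-! Sections of the structure sheaf of an irreducible variety (helper64). -/

set_option autoImplicit false
set_option linter.all false

open MvPolynomial H960VB Matrix
open Pool.Agent.W467.FX (ZS cone grad conormal Lam eval_Lam grad_mul_of_zero)

namespace Pool.Agent.K6.H64.VB

variable {n : ℕ}

/-- a rational function of degree zero which is regular everywhere is a constant -/
theorem eig {L : Type} [Field L] [Algebra ℂ L] (π : S n →ₐ[ℂ] L) (u : L) (N : ℕ)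
    (r : Fin (n + 1) → S n) (hr : ∀ i, (r i).IsHomogeneous N)
    (h : ∀ i, π (X i) ≠ 0 → u * π (X i) ^ N = π (r i)) (hex : ∃ i, π (X i) ≠ 0) :
    ∃ c : ℂ, u = algebraMap ℂ L c := by
  classical
  obtain ⟨i₀, hi₀⟩ := hex
  let d : ℕ := (n + 1) * N
  let B : Set L := (fun m : Fin (n + 1) →₀ ℕ => π (monomial m 1)) '' {m | m.degree = d}
  let W : Submodule ℂ L := Submodule.span ℂ B
  have hBf : B.Finite := by
    refine Set.Finite.image _ (Set.Finite.subset (Finsupp.finite_of_degree_le (σ := Fin (n + 1)) d) ?_)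
    intro m hm
    exact le_of_eq hm
  haveI : FiniteDimensional ℂ W := FiniteDimensional.span_of_finite ℂ hBf
  have hmem : ∀ f : S n, f.IsHomogeneous d → π f ∈ W := by
    intro f hf
    rw [f.as_sum, map_sum]
    refine Submodule.sum_mem _ fun m hm => ?_
    have hdeg : m.degree = d := by
      have := hf (mem_support_iff.1 hm)
      rwa [Finsupp.degree_eq_weight_one]
    have e : monomial m (coeff m f) = (coeff m f) • (monomial m (1 : ℂ) : S n) := by
      rw [smul_monomial, smul_eq_mul, mul_one]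
    rw [e, map_smul]
    exact Submodule.smul_mem _ _ (Submodule.subset_span ⟨m, hdeg, rfl⟩)
  have hstab : ∀ w ∈ W, u * w ∈ W := by
    intro w hw
    refine Submodule.span_induction (p := fun w _ => u * w ∈ W) ?_ ?_ ?_ ?_ hw
    · rintro _ ⟨m, hm, rfl⟩
      have hm' : m.degree = d := hm
      by_cases hz : ∀ i, m i ≠ 0 → π (X i) ≠ 0
      · obtain ⟨i, hi, hNi⟩ : ∃ i, π (X i) ≠ 0 ∧ N ≤ m i := by
          by_contra hc
          push Not at hc
          have hN : 0 < N := lt_of_le_of_lt (Nat.zero_le _) (hc i₀ hi₀)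
          have hlt : ∀ i, m i < N := by
            intro i
            by_cases h0 : m i = 0
            · rw [h0]; exact hN
            · exact hc i (hz i h0)
          have hs : ∑ i, m i < ∑ _i : Fin (n + 1), N :=
            Finset.sum_lt_sum_of_nonempty Finset.univ_nonempty fun i _ => hlt i
          rw [Finset.sum_const, Finset.card_univ, Fintype.card_fin, smul_eq_mul] at hs
          have hs' : ∑ i, m i = d := by
            rw [← hm', Finsupp.degree_eq_sum]
          omega
        have hle : Finsupp.single i N ≤ m := by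
          rw [Finsupp.single_le_iff]; exact hNi
        have em : (monomial m (1 : ℂ) : S n) =
            X i ^ N * monomial (m - Finsupp.single i N) 1 := by
          rw [X_pow_eq_monomial, monomial_mul, one_mul, add_tsub_cancel_of_le hle]
        have hdd : (m - Finsupp.single i N).degree + N = d := by
          have h1 : (m - Finsupp.single i N) + Finsupp.single i N = m := tsub_add_cancel_of_le hle
          have h2 := congrArg Finsupp.degree h1
          rw [map_add, Finsupp.degree_single, hm'] at h2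
          exact h2
        show u * π (monomial m 1) ∈ W
        rw [em, map_mul, map_pow, ← mul_assoc, h i hi, ← map_mul]
        apply hmem
        have h3 : (monomial (m - Finsupp.single i N) (1 : ℂ) : S n).IsHomogeneous
            (m - Finsupp.single i N).degree := isHomogeneous_monomial _ rfl
        have := (hr i).mul h3
        rwa [show N + (m - Finsupp.single i N).degree = d by omega] at this
      · push Not at hz
        obtain ⟨i, hi, hi0⟩ := hz
        have hle : Finsupp.single i 1 ≤ m := by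
          rw [Finsupp.single_le_iff]; omega
        have em : (monomial m (1 : ℂ) : S n) =
            X i * monomial (m - Finsupp.single i 1) 1 := by
          rw [X, monomial_mul, one_mul, add_tsub_cancel_of_le hle]
        show u * π (monomial m 1) ∈ W
        rw [em, map_mul, hi0, zero_mul, mul_zero]
        exact Submodule.zero_mem _
    · rw [mul_zero]; exact Submodule.zero_mem _
    · intro a b _ _ ha hb
      rw [mul_add]; exact Submodule.add_mem _ ha hb
    · intro c a _ ha
      rw [mul_smul_comm]; exact Submodule.smul_mem _ _ ha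
  let T : W →ₗ[ℂ] W := (LinearMap.mulLeft ℂ u).restrict hstab
  have hne : π (X i₀ ^ d) ≠ 0 := by rw [map_pow]; exact pow_ne_zero _ hi₀
  haveI : Nontrivial W := ⟨⟨⟨π (X i₀ ^ d), hmem _ (by
    simpa using (isHomogeneous_X ℂ i₀).pow d)⟩, 0, fun h0 => hne (congrArg Subtype.val h0)⟩⟩
  obtain ⟨c, hc⟩ := Module.End.exists_eigenvalue T
  obtain ⟨w, hw⟩ := hc.exists_hasEigenvector
  refine ⟨c, ?_⟩
  have h1 : u * (w : L) = c • (w : L) := congrArg Subtype.val hw.apply_eq_smul
  have h2 : (w : L) ≠ 0 := fun h0 => hw.2 (Subtype.ext h0)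
  rw [Algebra.smul_def] at h1
  exact mul_right_cancel₀ h2 h1

/-- the quotient map to the field of fractions -/
noncomputable def toL (I : Ideal (S n)) : S n →ₐ[ℂ] FractionRing (S n ⧸ I) :=
  (IsScalarTower.toAlgHom ℂ (S n ⧸ I) (FractionRing (S n ⧸ I))).comp (Ideal.Quotient.mkₐ ℂ I)

theorem toL_eq_zero {I : Ideal (S n)} [I.IsPrime] {f : S n} : toL I f = 0 ↔ f ∈ I := by
  have h1 : toL I f = algebraMap (S n ⧸ I) (FractionRing (S n ⧸ I)) (Ideal.Quotient.mk I f) := rfl
  rw [h1, ← Ideal.Quotient.eq_zero_iff_mem]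
  exact (map_eq_zero_iff _ (IsFractionRing.injective (S n ⧸ I) (FractionRing (S n ⧸ I))))

variable {E : Bundle2 n} {s : Vec E} {I : Ideal (S n)}

/-- compatible families on a variety -/
theorem fam_eq (Z : ZS E s I) {k : ℤ} {N : ℕ} {t : Fin (n + 1) → S n}
    (ht : IsFamI (iX s) k N t) {i j : Fin (n + 1)} (hi : (X i : S n) ∉ I) (hj : (X j : S n) ∉ I) :
    X i ^ N * t j - X j ^ N * t i ∈ I := by
  haveI := Z.prime
  have hle : iX s ≤ I := by
    unfold iX
    rw [Ideal.span_le]
    rintro _ ⟨i, rfl⟩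
    exact Z.mem i
  obtain ⟨M, hM⟩ := ht.2 i j
  rcases Z.prime.mem_or_mem (hle hM) with h | h
  · exfalso
    rcases Z.prime.mem_or_mem (Z.prime.mem_of_pow_mem _ h) with h | h
    · exact hi h
    · exact hj h
  · exact h

/-- a nonempty variety is not contained in all coordinate hyperplanes -/
theorem exists_X_notMem (Z : ZS E s I) : ∃ i, (X i : S n) ∉ I := by
  obtain ⟨x, hx, hx0⟩ := Z.ne
  obtain ⟨i, hi⟩ := Function.ne_iff.1 hx0
  refine ⟨i, fun h => hi ?_⟩
  have := hx _ h
  rwa [eval_X] at this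

/-- the structure sheaf of a variety has no sections of degree `-1` -/
theorem h1neg (hn : 3 ≤ n) (Z : ZS E s I)
    (hsat : ∀ F ∈ I, ∃ N : ℕ, ∀ i, X i ^ N * F ∈ Ideal.span (Set.range s)) :
    H1LeI (iX s) (-1) 0 := by
  classical
  haveI := Z.prime
  refine ⟨0, fun a => a.elim0, fun N t ht => ⟨fun a => a.elim0, 0, Or.inl rfl, fun i => ?_⟩⟩
  have e0 : X i ^ 0 * t i - X i ^ N * ∑ a : Fin 0, C ((fun a : Fin 0 => (a.elim0 : ℂ)) a) *
      (fun a : Fin 0 => (a.elim0 : Fin (n + 1) → S n)) a i - X i ^ (N + 0) * 0 = t i := by simp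
  rw [e0]
  by_cases hXi : (X i : S n) ∈ I
  · obtain ⟨M, hM⟩ := hsat _ hXi
    refine ⟨M + 1, ?_⟩
    rw [pow_succ]
    exact Ideal.mul_mem_right _ _ (hM i)
  suffices hti : t i ∈ I by
    obtain ⟨M, hM⟩ := hsat _ hti
    exact ⟨M, hM i⟩
  by_contra hti
  let π := toL I
  have hπ : ∀ {f : S n}, π f = 0 ↔ f ∈ I := toL_eq_zero
  have hXi' : π (X i) ≠ 0 := fun h => hXi (hπ.1 h)
  let u := π (t i) / π (X i) ^ N
  have hu0 : u ≠ 0 := div_ne_zero (fun h => hti (hπ.1 h)) (pow_ne_zero _ hXi')
  have hu : ∀ j, π (X j) ≠ 0 → u * π (X j) ^ N = π (t j) := by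
    intro j hj
    have h1 := hπ.2 (fam_eq Z ht hXi (fun h => hj (hπ.2 h)))
    rw [map_sub, map_mul, map_mul, map_pow, map_pow, sub_eq_zero] at h1
    show π (t i) / π (X i) ^ N * π (X j) ^ N = π (t j)
    field_simp
    linear_combination -h1
  have hc : ∀ l, ∃ c : ℂ, u * π (X l) = algebraMap ℂ _ c := by
    intro l
    refine eig π _ N (fun j => t j * X l) (fun j => ?_) (fun j hj => ?_) ⟨i, hXi'⟩
    · rcases ht.1 j with h | ⟨d, hd, hdh⟩
      · show (t j * X l).IsHomogeneous N
        rw [h, zero_mul]; exact isHomogeneous_zero _ _ _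
      · have := hdh.mul (isHomogeneous_X ℂ l)
        rwa [show d + 1 = N by omega] at this
    · show u * π (X l) * π (X j) ^ N = π (t j * X l)
      rw [map_mul, ← hu j hj]; ring
  choose c hc using hc
  have hci : c i ≠ 0 := by
    intro h0
    have := hc i
    rw [h0, map_zero] at this
    exact mul_ne_zero hu0 hXi' this
  have hlin : ∀ l, (C (c i) * X l - C (c l) * X i : S n) ∈ I := by
    intro l
    rw [← hπ]
    apply mul_left_cancel₀ hu0
    have e : ∀ a : ℂ, π (C a) = algebraMap ℂ _ a := fun a => π.commutes a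
    rw [mul_zero, map_sub, map_mul, map_mul, e, e]
    linear_combination algebraMap ℂ (FractionRing (S n ⧸ I)) (c i) * hc l -
      algebraMap ℂ (FractionRing (S n ⧸ I)) (c l) * hc i
  obtain ⟨x, hx, hx0⟩ := Z.ne
  have hfr := Z.smooth x hx hx0
  have htop : conormal I x ⊔ Submodule.span ℂ {(Pi.single i 1 : Fin (n + 1) → ℂ)} = ⊤ := by
    rw [eq_top_iff]
    intro v _
    rw [pi_eq_sum_univ v]
    refine Submodule.sum_mem _ fun l _ => Submodule.smul_mem _ _ ?_
    have e1 : (fun j => if l = j then (1 : ℂ) else 0) = (c i)⁻¹ •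
        (grad (C (c i) * X l - C (c l) * X i : S n) x + c l • Pi.single i 1) := by
      funext k
      have e2 : grad (C (c i) * X l - C (c l) * X i : S n) x k =
          c i * (if l = k then 1 else 0) - c l * (if i = k then 1 else 0) := by
        unfold grad
        rw [map_sub, Derivation.leibniz, Derivation.leibniz, pderiv_C, pderiv_C, pderiv_X,
          pderiv_X]
        simp only [smul_eq_mul, mul_zero, add_zero, map_sub, map_mul, eval_C, Pi.single_apply]
        congr 2
        · split_ifs <;> simp_all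
        · split_ifs <;> simp_all
      rw [Pi.smul_apply, Pi.add_apply, Pi.smul_apply, e2, Pi.single_apply, smul_eq_mul,
        smul_eq_mul]
      have e3 : (if k = i then (1 : ℂ) else 0) = if i = k then 1 else 0 := by
        simp only [eq_comm]
      rw [e3]
      field_simp
      ring
    rw [e1]
    refine Submodule.smul_mem _ _ (Submodule.add_mem _ ?_ (Submodule.smul_mem _ _ ?_))
    · exact Submodule.mem_sup_left (Submodule.subset_span ⟨_, hlin l, rfl⟩)
    · exact Submodule.mem_sup_right (Submodule.subset_span rfl)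
  have h1 := Submodule.finrank_add_le_finrank_add_finrank (conormal I x)
    (Submodule.span ℂ {(Pi.single i 1 : Fin (n + 1) → ℂ)})
  rw [htop, finrank_top, Module.finrank_fintype_fun_eq_card, Fintype.card_fin, hfr] at h1
  have h2 : Module.finrank ℂ (Submodule.span ℂ {(Pi.single i 1 : Fin (n + 1) → ℂ)}) ≤ 1 :=
    Pool.Agent.W467.FX.sing_le _
  omega

/-- the squares of the two ideals have the same saturation -/
theorem sq_sat (hsat : ∀ F ∈ I, ∃ N : ℕ, ∀ i, X i ^ N * F ∈ Ideal.span (Set.range s)) {F : S n}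
    (hF : F ∈ I ^ 2) : ∃ N : ℕ, ∀ i, X i ^ N * F ∈ iX s ^ 2 := by
  rw [sq] at hF
  refine Submodule.mul_induction_on hF (fun a ha b hb => ?_) fun a b ha hb => ?_
  · obtain ⟨N, hN⟩ := hsat a ha
    obtain ⟨M, hM⟩ := hsat b hb
    refine ⟨N + M, fun i => ?_⟩
    rw [sq, show X i ^ (N + M) * (a * b) = (X i ^ N * a) * (X i ^ M * b) by rw [pow_add]; ring]
    exact Ideal.mul_mem_mul (hN i) (hM i)
  · obtain ⟨N, hN⟩ := ha
    obtain ⟨M, hM⟩ := hb
    refine ⟨N + M, fun i => ?_⟩
    rw [mul_add]
    refine add_mem ?_ ?_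
    · rw [show X i ^ (N + M) * a = X i ^ M * (X i ^ N * a) by rw [pow_add]; ring]
      exact Ideal.mul_mem_left _ _ (hN i)
    · rw [show X i ^ (N + M) * b = X i ^ N * (X i ^ M * b) by rw [pow_add]; ring]
      exact Ideal.mul_mem_left _ _ (hM i)

/-- passage to the square of the ideal of coordinates -/
theorem h1sq (Z : ZS E s I)
    (hsat : ∀ F ∈ I, ∃ N : ℕ, ∀ i, X i ^ N * F ∈ Ideal.span (Set.range s)) {k : ℤ} {b : ℕ}
    (hb : H1LeI (I ^ 2) k b) : H1LeI (iX s ^ 2) k b := by
  have hle : iX s ≤ I := by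
    unfold iX
    rw [Ideal.span_le]
    rintro _ ⟨i, rfl⟩
    exact Z.mem i
  have hle2 : iX s ^ 2 ≤ I ^ 2 := Ideal.pow_right_mono hle 2
  obtain ⟨N', s', hs⟩ := hb
  refine ⟨N', s', fun N t ht => ?_⟩
  obtain ⟨μ, f, hf, hft⟩ := hs N t ⟨ht.1, fun i j => by
    obtain ⟨M, hM⟩ := ht.2 i j
    exact ⟨M, hle2 hM⟩⟩
  refine ⟨μ, f, hf, fun i => ?_⟩
  obtain ⟨M, hM⟩ := hft i
  obtain ⟨M', hM'⟩ := sq_sat hsat hM
  refine ⟨M' + M, ?_⟩
  have := hM' i
  rwa [← mul_assoc, ← pow_add] at this

/-- the criterion -/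
theorem smooth_main (hn : 4 ≤ n) (Z : ZS E s I)
    (hsat : ∀ F ∈ I, ∃ N : ℕ, ∀ i, X i ^ N * F ∈ Ideal.span (Set.range s))
    {P Q : Fin (n + 1) → ℂ} (hPQ : LinearIndependent ℂ ![P, Q]) {p q : ℤ}
    (hE : E.SplitsOn P Q p q) {b : ℕ} (hb : H1LeI (I ^ 2) (p + q - 1) b) (hbn : b ≤ n) :
    E.Splits := by
  by_contra hc
  obtain ⟨P', hP'⟩ := c1P_of_line (by omega) hPQ hE
  have := sec2 hn hc hP' (m := 0) (Pool.Agent.W615.sec_iff.1 Z.sec) (cod2_of_smooth (by omega) Z)
    (h1neg (by omega) Z hsat) (b := b) (by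
      have := h1sq Z hsat hb
      rwa [show p + q + 2 * (0 : ℤ) - 1 = p + q - 1 by ring])
  omega

end Pool.Agent.K6.H64.VB
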