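import Pool.Agent.K6.H64.VB.Main

/-! The first cohomology of a sheaf of ideals (helper64). -/

set_option autoImplicit false
set_option linter.all false

open MvPolynomial H960VB Matrix

namespace Pool.Agent.K6.H64.VB

variable {n : ℕ} {K : Type} [Field K] [Algebra (S n) K] [IsFractionRing (S n) K]

/-- compatible families -/
def IsCFJ (J : Submodule (S n) K) (k : ℤ) (t : Fin (n + 1) → K) : Prop :=
  (∀ i, t i ∈ locI {i} (O (n := n) K)) ∧ (∀ i, Hm n k (t i)) ∧ ∀ i j, t j - t i ∈ locI {i, j} J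

/-- the family is the restriction of a form -/
def IsExtJ (J : Submodule (S n) K) (k : ℤ) (t : Fin (n + 1) → K) : Prop :=
  ∃ F : S n, HomZ F k ∧ ∀ i, t i - algebraMap (S n) K F ∈ locI {i} J

/-- the first cohomology of the twist of the ideal sheaf is spanned by `c` classes -/
def H1J (J : Submodule (S n) K) (k : ℤ) (c : ℕ) : Prop :=
  ∃ s' : Fin c → Fin (n + 1) → K, ∀ t, IsCFJ J k t → ∃ μ : Fin c → ℂ,
    IsExtJ J k (fun i => t i - ∑ a, algebraMap (S n) K (C (μ a)) * s' a i)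

theorem H1J.rel {J : Submodule (S n) K} {k : ℤ} {c : ℕ} (h : H1J J k c)
    (t : Fin (c + 1) → Fin (n + 1) → K) (ht : ∀ a, IsCFJ J k (t a)) :
    ∃ l : Fin (c + 1) → ℂ, l ≠ 0 ∧
      IsExtJ J k (fun i => ∑ a, algebraMap (S n) K (C (l a)) * t a i) := by
  obtain ⟨s', hs⟩ := h
  choose μ F hF hFt using fun a => hs (t a) (ht a)
  let L : (Fin (c + 1) → ℂ) →ₗ[ℂ] (Fin c → ℂ) := Matrix.vecMulLinear (Matrix.of μ)
  have hker : LinearMap.ker L ≠ ⊥ := LinearMap.ker_ne_bot_of_finrank_lt (by simp)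
  obtain ⟨l, hl, hl0⟩ := (Submodule.ne_bot_iff _).1 hker
  refine ⟨l, hl0, ∑ a, C (l a) * F a, homZ_sum _ fun a => ?_, fun i => ?_⟩
  · have := homZ_mul (Or.inr ⟨0, rfl, isHomogeneous_C _ (l a)⟩ : HomZ (C (l a) : S n) ((0 : ℕ) : ℤ))
      (hF a)
    simpa using this
  · have h1 : ∀ b, ∑ a, l a * μ a b = 0 := fun b => congrFun (LinearMap.mem_ker.1 hl) b
    have h2 : ∑ a, algebraMap (S n) K (C (l a)) * t a i - algebraMap (S n) K (∑ a, C (l a) * F a) =
        ∑ a, (C (l a) : S n) • (t a i - ∑ b, algebraMap (S n) K (C (μ a b)) * s' b i -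
          algebraMap (S n) K (F a)) := by
      have h3 : ∑ a, algebraMap (S n) K (C (l a)) *
          ∑ b, algebraMap (S n) K (C (μ a b)) * s' b i = 0 := by
        simp only [Finset.mul_sum]
        rw [Finset.sum_comm]
        refine Finset.sum_eq_zero fun b _ => ?_
        have h4 : ∑ a, algebraMap (S n) K (C (l a)) * (algebraMap (S n) K (C (μ a b)) * s' b i) =
            algebraMap (S n) K (C (∑ a, l a * μ a b)) * s' b i := by
          rw [map_sum, map_sum, Finset.sum_mul]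
          refine Finset.sum_congr rfl fun a _ => ?_
          rw [MvPolynomial.C_mul, map_mul]; ring
        rw [h4, h1 b, map_zero, map_zero, zero_mul]
      simp only [Algebra.smul_def, mul_sub, Finset.sum_sub_distrib, map_sum, map_mul]
      rw [h3, sub_zero]
    rw [h2]
    exact Submodule.sum_mem _ fun a _ => Submodule.smul_mem _ _ (hFt a i)

/-- the ideal, in `K` -/
noncomputable def iK (𝔞 : Ideal (S n)) (K : Type) [Field K] [Algebra (S n) K] :
    Submodule (S n) K := Submodule.map (Algebra.linearMap (S n) K) 𝔞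

theorem mem_iK {𝔞 : Ideal (S n)} {q : K} :
    q ∈ iK 𝔞 K ↔ ∃ f ∈ 𝔞, algebraMap (S n) K f = q := Iff.rfl

theorem am_mem_iK {𝔞 : Ideal (S n)} {f : S n} : algebraMap (S n) K f ∈ iK 𝔞 K ↔ f ∈ 𝔞 := by
  rw [mem_iK]
  constructor
  · rintro ⟨g, hg, e⟩
    rwa [← am_inj e]
  · intro h
    exact ⟨f, h, rfl⟩

/-- a section of degree `k` of the structure sheaf of a scheme, given by the functions
`s i / (x i) ^ N` -/
def IsFamI (𝔞 : Ideal (S n)) (k : ℤ) (N : ℕ) (s : Fin (n + 1) → S n) : Prop :=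
  (∀ i, HomZ (s i) (k + N)) ∧
    ∀ i j, ∃ M : ℕ, (X i * X j) ^ M * (X i ^ N * s j - X j ^ N * s i) ∈ 𝔞

/-- the first cohomology of the `k`-th twist of the ideal sheaf is spanned by `c` classes -/
def H1LeI (𝔞 : Ideal (S n)) (k : ℤ) (c : ℕ) : Prop :=
  ∃ (N' : ℕ) (s' : Fin c → Fin (n + 1) → S n), ∀ (N : ℕ) (s : Fin (n + 1) → S n),
    IsFamI 𝔞 k N s → ∃ (μ : Fin c → ℂ) (f : S n), HomZ f k ∧ ∀ i, ∃ M : ℕ,
      X i ^ M * (X i ^ N' * s i - X i ^ N * ∑ a, C (μ a) * s' a i - X i ^ (N + N') * f) ∈ 𝔞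

theorem H1LeI.toJ {𝔞 : Ideal (S n)} {J : Submodule (S n) K} (h1 : ∀ l, J ≤ locI {l} (iK 𝔞 K))
    (h2 : ∀ l, iK 𝔞 K ≤ locI {l} J) {k : ℤ} {c : ℕ} (h : H1LeI 𝔞 k c) : H1J J k c := by
  obtain ⟨N', s', hs'⟩ := h
  refine ⟨fun a i => algebraMap (S n) K (s' a i) * (algebraMap (S n) K (X i ^ N'))⁻¹,
    fun t ht => ?_⟩
  obtain ⟨ht1, ht2, ht3⟩ := ht
  choose N₀ hN₀ using ht1
  let N := Finset.univ.sup N₀
  have hN : ∀ i, xp {i} ^ N • t i ∈ O (n := n) K := fun i =>
    locI_up (hN₀ i) (Finset.le_sup (Finset.mem_univ i))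
  choose s hs using fun i => mem_O.1 (hN i)
  have hs1 : ∀ i, algebraMap (S n) K (s i) = algebraMap (S n) K (X i ^ N) * t i := by
    intro i
    rw [hs i, xp_one, Algebra.smul_def]
  have hfam : IsFamI 𝔞 k N s := by
    refine ⟨fun i => ?_, fun i j => ?_⟩
    · exact homZ_of_hm (ht2 i) (pow_ne_zero N (X_ne_zero i))
        (by simpa using (isHomogeneous_X ℂ i).pow N) (hs1 i).symm
    · by_cases hij : i = j
      · subst hij
        exact ⟨0, by rw [sub_self, mul_zero]; exact Submodule.zero_mem _⟩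
      · obtain ⟨M1, hM1⟩ := ht3 i j
        obtain ⟨M2, f, hf, e⟩ := h1 i hM1
        change algebraMap (S n) K f = _ at e
        refine ⟨M1 + M2, ?_⟩
        have e2 : (X i * X j) ^ (M1 + M2) * (X i ^ N * s j - X j ^ N * s i) =
            (X j ^ M2 * (X i * X j) ^ N) * f := by
          apply am_inj (K := K)
          rw [map_mul (algebraMap (S n) K) _ f, e, xp_one, xp_two hij]
          simp only [Algebra.smul_def, map_mul, map_sub, map_pow]
          have h3 := hs1 i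
          have h4 := hs1 j
          rw [map_pow] at h3 h4
          rw [h3, h4]
          ring
        rw [e2]
        exact Ideal.mul_mem_left _ _ hf
  obtain ⟨μ, f, hf, hfs⟩ := hs' N s hfam
  refine ⟨μ, f, hf, fun i => ?_⟩
  obtain ⟨M, hM⟩ := hfs i
  refine mem_locI_iff_of_le (K := K) (M + N + N') ?_
  have h5 := h2 i (am_mem_iK.2 hM)
  have h6 : algebraMap (S n) K (X i ^ N') ≠ 0 := am_ne (pow_ne_zero _ (X_ne_zero i))
  have h7 : algebraMap (S n) K (X i ^ M *
      (X i ^ N' * s i - X i ^ N * ∑ a, C (μ a) * s' a i - X i ^ (N + N') * f)) =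
      xp {i} ^ (M + N + N') • (t i - ∑ a, algebraMap (S n) K (C (μ a)) *
        (algebraMap (S n) K (s' a i) * (algebraMap (S n) K (X i ^ N'))⁻¹) -
        algebraMap (S n) K f) := by
    have h8 : ∑ a, algebraMap (S n) K (C (μ a)) *
        (algebraMap (S n) K (s' a i) * (algebraMap (S n) K (X i ^ N'))⁻¹) =
        algebraMap (S n) K (∑ a, C (μ a) * s' a i) * (algebraMap (S n) K (X i ^ N'))⁻¹ := by
      rw [map_sum, Finset.sum_mul]
      refine Finset.sum_congr rfl fun a _ => ?_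
      rw [map_mul]; ring
    rw [h8, xp_one, Algebra.smul_def]
    have h9 := hs1 i
    rw [map_pow] at h9 h6
    simp only [map_mul, map_sub, map_pow, pow_add]
    rw [h9]
    field_simp
  rw [← h7]
  exact h5

end Pool.Agent.K6.H64.VB
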