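import Pool.Agent.K6.H64.VC.H1

/-! The complex of a section of a bundle of rank two (helper64). -/

set_option autoImplicit false
set_option linter.all false

open MvPolynomial H960VB Matrix

namespace Pool.Agent.K6.H64.VB

variable {n : ℕ} {K : Type} [Field K] [Algebra (S n) K] [IsFractionRing (S n) K]

/-- one of the two functions is not zero at `x`, or they form a regular sequence there -/
def Reg2 (x : Fin (n + 1) → ℂ) (f g : S n) : Prop :=
  (eval x f ≠ 0 ∨ eval x g ≠ 0) ∨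
    (f ≠ 0 ∧ ∀ p, InLocal x (Ideal.span {f}) (g * p) → InLocal x (Ideal.span {f}) p)

/-- syzygies of `f^2, 2 f g, g^2` -/
theorem koszul2 {x : Fin (n + 1) → ℂ} {f g α β γ : S n} (hr : Reg2 x f g)
    (h : γ * f ^ 2 - 2 * α * f * g - β * g ^ 2 = 0) : ∃ k p q : S n, eval x k ≠ 0 ∧
      k * α = -(g * p + f * q) ∧ k * γ = -2 * g * q ∧ k * β = 2 * f * p := by
  have two : eval x (2 : S n) ≠ 0 := by rw [map_ofNat]; norm_num
  rcases hr with (hf | hg) | ⟨hf, hr⟩
  · refine ⟨2 * f ^ 2, f * β, -2 * f * α - g * β, ?_, by ring, ?_, by ring⟩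
    · rw [map_mul, map_pow]; exact mul_ne_zero two (pow_ne_zero _ hf)
    · linear_combination 2 * h
  · refine ⟨2 * g ^ 2, -2 * g * α + f * γ, -g * γ, ?_, by ring, by ring, ?_⟩
    · rw [map_mul, map_pow]; exact mul_ne_zero two (pow_ne_zero _ hg)
    · linear_combination -2 * h
  · -- regular sequence
    have hr2 : ∀ p, InLocal x (Ideal.span {f}) (g ^ 2 * p) → InLocal x (Ideal.span {f}) p := by
      intro p hp
      refine hr p (hr (g * p) ?_)
      rwa [← mul_assoc, ← sq]
    obtain ⟨h1, hh1, e1⟩ := hr2 β ⟨1, by simp, by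
      rw [one_mul, Ideal.mem_span_singleton']
      exact ⟨γ * f - 2 * α * g, by linear_combination h⟩⟩
    obtain ⟨p, hp⟩ := Ideal.mem_span_singleton'.1 e1
    -- `h1 β = p f`
    have e2 : 2 * h1 * γ * f = 4 * h1 * α * g + 2 * p * g ^ 2 := by
      apply mul_left_cancel₀ hf
      linear_combination 2 * h1 * h - 2 * g ^ 2 * hp
    obtain ⟨h2, hh2, e3⟩ := hr (2 * h1 * α + p * g) ⟨1, by simp, by
      rw [one_mul, Ideal.mem_span_singleton']
      exact ⟨h1 * γ, by
        have two' : (2 : S n) ≠ 0 := by norm_num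
        apply mul_left_cancel₀ two'
        linear_combination e2⟩⟩
    obtain ⟨q, hq⟩ := Ideal.mem_span_singleton'.1 e3
    -- `h2 (2 h1 α + p g) = q f`
    refine ⟨2 * h1 * h2, h2 * p, -q, ?_, ?_, ?_, ?_⟩
    · rw [map_mul, map_mul]; exact mul_ne_zero (mul_ne_zero two hh1) hh2
    · linear_combination -hq
    · apply mul_left_cancel₀ hf
      linear_combination h2 * e2 - 2 * g * hq
    · linear_combination -2 * h2 * hp

/-- the determinant of two vectors -/
def Dv (ω : K) (v w : Fin 2 → K) : K := (v 0 * w 1 - v 1 * w 0) * ω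

theorem Dv_add (ω : K) (v w w' : Fin 2 → K) : Dv ω v (w + w') = Dv ω v w + Dv ω v w' := by
  unfold Dv; simp only [Pi.add_apply]; ring

theorem Dv_sub (ω : K) (v w w' : Fin 2 → K) : Dv ω v (w - w') = Dv ω v w - Dv ω v w' := by
  unfold Dv; simp only [Pi.sub_apply]; ring

theorem Dv_ksmul (ω c : K) (v w : Fin 2 → K) : Dv ω v (c • w) = c * Dv ω v w := by
  unfold Dv; simp only [Pi.smul_apply, smul_eq_mul]; ring

theorem Dv_ksmul' (ω c : K) (v w : Fin 2 → K) : Dv ω (c • v) w = c * Dv ω v w := by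
  unfold Dv; simp only [Pi.smul_apply, smul_eq_mul]; ring

theorem Dv_smul (ω : K) (c : S n) (v w : Fin 2 → K) : Dv ω v (c • w) = c • Dv ω v w := by
  rw [smul_eq_am (K := K) c w, Dv_ksmul, Algebra.smul_def]

theorem Dv_smul' (ω : K) (c : S n) (v w : Fin 2 → K) : Dv ω (c • v) w = c • Dv ω v w := by
  rw [smul_eq_am (K := K) c v, Dv_ksmul', Algebra.smul_def]

theorem Dv_self (ω : K) (v : Fin 2 → K) : Dv ω v v = 0 := by
  unfold Dv; ring

theorem Dv_mulVec (ω : K) (P : M2 K) (v w : Fin 2 → K) :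
    Dv ω (P.mulVec v) (P.mulVec w) = (P.det * ω) * (v 0 * w 1 - v 1 * w 0) := by
  unfold Dv
  rw [Matrix.det_fin_two]
  simp only [Matrix.mulVec, dotProduct, Fin.sum_univ_two]
  ring

/-- the endomorphism `v ↦ D(σ, v) w + D(w, v) σ` -/
def Yw (ω : K) (σ w : Fin 2 → K) : M2 K := Matrix.of fun i j =>
  Dv ω σ (Pi.single j 1) * w i + Dv ω w (Pi.single j 1) * σ i

theorem Dv_e0 (ω : K) (v : Fin 2 → K) : Dv ω v (Pi.single 0 1) = -(v 1) * ω := by
  unfold Dv; simp

theorem Dv_e1 (ω : K) (v : Fin 2 → K) : Dv ω v (Pi.single 1 1) = v 0 * ω := by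
  unfold Dv; simp

theorem Yw_mulVec (ω : K) (σ w v : Fin 2 → K) :
    (Yw ω σ w).mulVec v = Dv ω σ v • w + Dv ω w v • σ := by
  funext i
  show ∑ j, (Dv ω σ (Pi.single j 1) * w i + Dv ω w (Pi.single j 1) * σ i) * v j =
    Dv ω σ v * w i + Dv ω w v * σ i
  rw [Fin.sum_univ_two, Dv_e0, Dv_e0, Dv_e1, Dv_e1]
  unfold Dv
  ring

theorem Yw_trace (ω : K) (σ w : Fin 2 → K) : (Yw ω σ w).trace = 0 := by
  rw [Matrix.trace, Fin.sum_univ_two]
  show Dv ω σ (Pi.single 0 1) * w 0 + Dv ω w (Pi.single 0 1) * σ 0 +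
    (Dv ω σ (Pi.single 1 1) * w 1 + Dv ω w (Pi.single 1 1) * σ 1) = 0
  rw [Dv_e0, Dv_e0, Dv_e1, Dv_e1]
  ring

theorem Yw_add (ω : K) (σ w w' : Fin 2 → K) : Yw ω σ (w + w') = Yw ω σ w + Yw ω σ w' := by
  refine Matrix.ext fun i j => ?_
  show Dv ω σ (Pi.single j 1) * (w i + w' i) + Dv ω (w + w') (Pi.single j 1) * σ i =
    Dv ω σ (Pi.single j 1) * w i + Dv ω w (Pi.single j 1) * σ i +
    (Dv ω σ (Pi.single j 1) * w' i + Dv ω w' (Pi.single j 1) * σ i)
  unfold Dv; simp only [Pi.add_apply]; ring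

theorem Yw_smul (ω : K) (σ : Fin 2 → K) (c : S n) (w : Fin 2 → K) :
    Yw ω σ (c • w) = c • Yw ω σ w := by
  refine Matrix.ext fun i j => ?_
  show Dv ω σ (Pi.single j 1) * (c • w i) + Dv ω (c • w) (Pi.single j 1) * σ i =
    c • (Dv ω σ (Pi.single j 1) * w i + Dv ω w (Pi.single j 1) * σ i)
  rw [Dv_smul', Algebra.smul_def, Algebra.smul_def, Algebra.smul_def]; ring

theorem Yw_zero (ω : K) (σ : Fin 2 → K) : Yw ω σ 0 = 0 := by
  refine Matrix.ext fun i j => ?_
  show Dv ω σ (Pi.single j 1) * (0 : Fin 2 → K) i + Dv ω 0 (Pi.single j 1) * σ i = 0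
  unfold Dv; simp

theorem Yw_sub (ω : K) (σ w w' : Fin 2 → K) : Yw ω σ (w - w') = Yw ω σ w - Yw ω σ w' := by
  refine Matrix.ext fun i j => ?_
  show Dv ω σ (Pi.single j 1) * (w i - w' i) + Dv ω (w - w') (Pi.single j 1) * σ i =
    Dv ω σ (Pi.single j 1) * w i + Dv ω w (Pi.single j 1) * σ i -
    (Dv ω σ (Pi.single j 1) * w' i + Dv ω w' (Pi.single j 1) * σ i)
  unfold Dv; simp only [Pi.sub_apply]; ring

theorem Yw_inj {ω : K} (hω : ω ≠ 0) (h2 : (2 : K) ≠ 0) {σ : Fin 2 → K} (hσ : σ ≠ 0) {w : Fin 2 → K}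
    (h : Yw ω σ w = 0) : w = 0 := by
  have e00 : -(σ 1) * ω * w 0 + -(w 1) * ω * σ 0 = 0 := by
    have := congrFun (congrFun h 0) 0
    change Dv ω σ (Pi.single 0 1) * w 0 + Dv ω w (Pi.single 0 1) * σ 0 = 0 at this
    rwa [Dv_e0, Dv_e0] at this
  have e01 : σ 0 * ω * w 0 + w 0 * ω * σ 0 = 0 := by
    have := congrFun (congrFun h 0) 1
    change Dv ω σ (Pi.single 1 1) * w 0 + Dv ω w (Pi.single 1 1) * σ 0 = 0 at this
    rwa [Dv_e1, Dv_e1] at this
  have e10 : -(σ 1) * ω * w 1 + -(w 1) * ω * σ 1 = 0 := by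
    have := congrFun (congrFun h 1) 0
    change Dv ω σ (Pi.single 0 1) * w 1 + Dv ω w (Pi.single 0 1) * σ 1 = 0 at this
    rwa [Dv_e0, Dv_e0] at this
  have a0 : σ 0 * w 0 = 0 := by
    have : 2 * ω * (σ 0 * w 0) = 0 := by linear_combination e01
    exact (mul_eq_zero.1 this).resolve_left (mul_ne_zero h2 hω)
  have a1 : σ 1 * w 1 = 0 := by
    have : 2 * ω * (σ 1 * w 1) = 0 := by linear_combination -e10
    exact (mul_eq_zero.1 this).resolve_left (mul_ne_zero h2 hω)
  have a2 : σ 1 * w 0 + w 1 * σ 0 = 0 := by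
    have : ω * (σ 1 * w 0 + w 1 * σ 0) = 0 := by linear_combination -e00
    exact (mul_eq_zero.1 this).resolve_left hω
  by_cases h0 : σ 0 = 0
  · have h1 : σ 1 ≠ 0 := by
      intro h1
      apply hσ
      funext i
      fin_cases i
      · exact h0
      · exact h1
    have w1 : w 1 = 0 := (mul_eq_zero.1 a1).resolve_left h1
    have w0 : w 0 = 0 := by
      rw [h0, mul_zero, add_zero] at a2
      exact (mul_eq_zero.1 a2).resolve_left h1
    funext i
    fin_cases i
    · exact w0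
    · exact w1
  · have w0 : w 0 = 0 := (mul_eq_zero.1 a0).resolve_left h0
    have w1 : w 1 = 0 := by
      rw [w0, mul_zero, zero_add] at a2
      exact (mul_eq_zero.1 a2).resolve_right h0
    funext i
    fin_cases i
    · exact w0
    · exact w1

/-- the data of a section -/
structure Sx (M : Submodule (S n) (Fin 2 → K)) (ω : K) (σ : Fin 2 → K) (p e : ℤ) : Prop where
  geo : Geo M
  mem : σ ∈ M
  ne : σ ≠ 0
  ωne : ω ≠ 0
  hσ : HmV n p σ
  hω : Hm n e ω
  int : ∀ v ∈ M, ∀ w ∈ M, Dv ω v w ∈ O (n := n) K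
  chart : ∀ x : Fin (n + 1) → ℂ, x ≠ 0 → ∃ (P : M2 K) (g f f' ε : S n), IsChart M x P g ∧
    g • σ = P.mulVec (pv K ![f, f']) ∧ P.det * ω = algebraMap (S n) K ε ∧ eval x ε ≠ 0 ∧
    Reg2 x f f'

variable {M : Submodule (S n) (Fin 2 → K)} {ω : K} {σ : Fin 2 → K} {p e : ℤ}

theorem Sx.Yw_mem (h : Sx M ω σ p e) {I : Finset (Fin (n + 1))} {w : Fin 2 → K}
    (hw : w ∈ locI I M) : Yw ω σ w ∈ locI I (A0 M) := by
  obtain ⟨N, hN⟩ := hw
  refine ⟨N, ?_, fun v hv => ?_⟩
  · rw [trace_smul, Yw_trace, smul_zero]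
  · rw [← Yw_smul, Yw_mulVec]
    obtain ⟨a, ha⟩ := mem_O.1 (h.int σ h.mem v hv)
    obtain ⟨b, hb⟩ := mem_O.1 (h.int _ hN v hv)
    rw [← ha, ← hb, algebraMap_smul, algebraMap_smul]
    exact M.add_mem (M.smul_mem _ hN) (M.smul_mem _ h.mem)

/-- a vector proportional to the section -/
theorem Sx.K1 (h : Sx M ω σ p e) {I : Finset (Fin (n + 1))} (hI : I.Nonempty) {w : Fin 2 → K}
    (hw : w ∈ locI I M) (h0 : Dv ω σ w = 0) : ∃ c ∈ locI I (O (n := n) K), w = c • σ := by
  have h1 : σ 0 * w 1 - σ 1 * w 0 = 0 := (mul_eq_zero.1 h0).resolve_right h.ωne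
  have hc : ∃ c : K, w = c • σ := by
    by_cases s0 : σ 0 = 0
    · have s1 : σ 1 ≠ 0 := by
        intro s1
        apply h.ne
        funext i
        fin_cases i
        · exact s0
        · exact s1
      refine ⟨w 1 / σ 1, ?_⟩
      have w0 : w 0 = 0 := by
        rw [s0, zero_mul, zero_sub, neg_eq_zero] at h1
        exact (mul_eq_zero.1 h1).resolve_left s1
      funext i
      fin_cases i
      · show w 0 = w 1 / σ 1 * σ 0
        rw [w0, s0, mul_zero]
      · show w 1 = w 1 / σ 1 * σ 1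
        field_simp
    · refine ⟨w 0 / σ 0, ?_⟩
      funext i
      fin_cases i
      · show w 0 = w 0 / σ 0 * σ 0
        field_simp
      · show w 1 = w 0 / σ 0 * σ 1
        field_simp
        linear_combination h1
  obtain ⟨c, hc⟩ := hc
  refine ⟨c, ?_, hc⟩
  obtain ⟨N, hN⟩ := hw
  let c' : K := xp I ^ N • c
  have hc' : xp I ^ N • w = c' • σ := by
    show xp I ^ N • w = (xp I ^ N • c) • σ
    rw [hc, smul_assoc]
  let 𝔟 : Ideal (S n) := {
    carrier := {f | f • c' ∈ O (n := n) K}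
    zero_mem' := by
      show (0 : S n) • c' ∈ O (n := n) K
      rw [zero_smul]; exact Submodule.zero_mem _
    add_mem' := by
      intro a b ha hb
      show (a + b) • c' ∈ O (n := n) K
      rw [add_smul]; exact Submodule.add_mem _ ha hb
    smul_mem' := by
      intro r a ha
      show (r • a) • c' ∈ O (n := n) K
      rw [smul_eq_mul, mul_smul]; exact Submodule.smul_mem _ _ ha }
  have hb : ∀ x : Fin (n + 1) → ℂ, x ≠ 0 → ∃ g ∈ 𝔟, eval x g ≠ 0 := by
    intro x hx
    obtain ⟨P, g, f, f', ε, hP, hσ, -, -, hr⟩ := h.chart x hx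
    obtain ⟨r, hr'⟩ := hP.2.2.2 _ hN
    have hu : IsUnit P.det := isUnit_iff_ne_zero.2 hP.1
    have e1 : pv K r = c' • pv K ![f, f'] := by
      have e2 : P.mulVec (pv K r) = P.mulVec (c' • pv K ![f, f']) := by
        rw [← hr', hc', mulVec_smul, ← hσ, smul_comm]
      have e3 := congrArg (fun Z => P⁻¹.mulVec Z) e2
      simp only [mulVec_mulVec, nonsing_inv_mul _ hu, one_mulVec] at e3
      exact e3
    have p1 : algebraMap (S n) K (r 0) = c' * algebraMap (S n) K f := congrFun e1 0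
    have p2 : algebraMap (S n) K (r 1) = c' * algebraMap (S n) K f' := congrFun e1 1
    rcases hr with (ha | hb) | ⟨ha, hb⟩
    · exact ⟨f, ⟨r 0, by
        show algebraMap (S n) K (r 0) = f • c'
        rw [p1, Algebra.smul_def, mul_comm]⟩, ha⟩
    · exact ⟨f', ⟨r 1, by
        show algebraMap (S n) K (r 1) = f' • c'
        rw [p2, Algebra.smul_def, mul_comm]⟩, hb⟩
    · obtain ⟨k, hk, hk'⟩ := hb (r 0) ⟨1, by simp, by
        rw [one_mul, Ideal.mem_span_singleton']
        refine ⟨r 1, am_inj (K := K) ?_⟩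
        rw [map_mul, map_mul, p1, p2]; ring⟩
      obtain ⟨q, hq⟩ := Ideal.mem_span_singleton'.1 hk'
      refine ⟨k, ⟨q, ?_⟩, hk⟩
      show algebraMap (S n) K q = k • c'
      have e4 : algebraMap (S n) K f ≠ 0 := am_ne ha
      apply mul_right_cancel₀ e4
      have e5 := congrArg (algebraMap (S n) K) hq
      rw [map_mul, map_mul, p1] at e5
      rw [e5, Algebra.smul_def]; ring
  obtain ⟨N', hN'⟩ := xp_pow_mem hb hI
  refine ⟨N' + N, ?_⟩
  rw [pow_add, mul_smul]
  exact hN'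

/-- endomorphisms which map the section to a multiple of itself -/
theorem Sx.K2 (h : Sx M ω σ p e) {I : Finset (Fin (n + 1))} (hI : I.Nonempty) {Y : M2 K}
    (hY : Y ∈ locI I (A0 M)) (h0 : Dv ω σ (Y.mulVec σ) = 0) :
    ∃ w ∈ locI I M, Yw ω σ w = Y := by
  obtain ⟨N, hN⟩ := hY
  let Y' : M2 K := xp I ^ N • Y
  have hY' : Y' ∈ A0 M := hN
  have h0' : Dv ω σ (Y'.mulVec σ) = 0 := by
    show Dv ω σ ((xp I ^ N • Y).mulVec σ) = 0
    rw [smul_mulVec, Dv_smul, h0, smul_zero]
  let 𝔞 : Ideal (S n) := {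
    carrier := {f | ∃ w ∈ M, Yw ω σ w = f • Y'}
    zero_mem' := ⟨0, Submodule.zero_mem _, by rw [zero_smul, Yw_zero]⟩
    add_mem' := by
      rintro a b ⟨X, hX, e⟩ ⟨X', hX', e'⟩
      exact ⟨X + X', Submodule.add_mem _ hX hX', by rw [Yw_add, e, e', add_smul]⟩
    smul_mem' := by
      rintro c a ⟨X, hX, e⟩
      exact ⟨c • X, Submodule.smul_mem _ _ hX, by rw [Yw_smul, e, smul_eq_mul, mul_smul]⟩ }
  have ha : ∀ x : Fin (n + 1) → ℂ, x ≠ 0 → ∃ g ∈ 𝔞, eval x g ≠ 0 := by
    intro x hx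
    obtain ⟨P, g, f, f', ε, hP, hσ, hε, hεx, hr⟩ := h.chart x hx
    obtain ⟨Y1, hY1⟩ := chart_end hP hY'.2
    have hu : IsUnit P.det := isUnit_iff_ne_zero.2 hP.1
    have e2 := chart_eq hP hY1
    have t1 := entry_of_trace (chart_trace hP hY1 hY'.1)
    have hg0 : algebraMap (S n) K g ≠ 0 := am_ne (am_eval_ne hP.2.1)
    have hεne : algebraMap (S n) K ε ≠ 0 := am_ne (am_eval_ne hεx)
    have e3 : (g • Y').mulVec (g • σ) = P.mulVec (pv K (Y1.mulVec ![f, f'])) := by
      rw [e2, hσ, mulVec_mulVec, Matrix.mul_assoc, Matrix.mul_assoc, nonsing_inv_mul _ hu,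
        Matrix.mul_one, ← mulVec_mulVec]
      congr 1
      funext i
      simp [pm, pv, mulVec, dotProduct]
    have e4 : Dv ω (g • σ) ((g • Y').mulVec (g • σ)) = 0 := by
      rw [smul_mulVec, mulVec_smul, Dv_smul, Dv_smul, Dv_smul', h0', smul_zero, smul_zero,
        smul_zero]
    rw [e3, hσ, Dv_mulVec, hε] at e4
    have e5 := (mul_eq_zero.1 e4).resolve_left hεne
    have e6 : Y1 1 0 * f ^ 2 - 2 * Y1 0 0 * f * f' - Y1 0 1 * f' ^ 2 = 0 := by
      apply am_inj (K := K)
      rw [map_zero, ← e5]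
      show _ = algebraMap (S n) K f * algebraMap (S n) K (∑ j, Y1 1 j * (![f, f'] : Fin 2 → S n) j) -
        algebraMap (S n) K f' * algebraMap (S n) K (∑ j, Y1 0 j * (![f, f'] : Fin 2 → S n) j)
      rw [← map_mul, ← map_mul, ← map_sub]
      congr 1
      rw [Fin.sum_univ_two, Fin.sum_univ_two, t1]
      simp only [Matrix.cons_val_zero, Matrix.cons_val_one]
      ring
    obtain ⟨k, a, b, hk, k1, k2, k3⟩ := koszul2 hr e6
    refine ⟨ε * k, ⟨P.mulVec (pv K ![a, b]), hP.2.2.1 _, ?_⟩, by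
      rw [map_mul]; exact mul_ne_zero hεx hk⟩
    -- compare the two matrices on all vectors
    have e7 : ∀ v : Fin 2 → K, (Yw ω σ (P.mulVec (pv K ![a, b]))).mulVec v =
        ((ε * k) • Y').mulVec v := by
      intro v
      let u : Fin 2 → K := P⁻¹.mulVec v
      have hv : v = P.mulVec u := by
        show v = P.mulVec (P⁻¹.mulVec v)
        rw [mulVec_mulVec, mul_nonsing_inv _ hu, one_mulVec]
      have e8 : g • (Yw ω σ (P.mulVec (pv K ![a, b]))).mulVec v =
          P.mulVec (((P.det * ω) * (algebraMap (S n) K f * u 1 - algebraMap (S n) K f' * u 0)) •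
            pv K ![a, b] +
            ((P.det * ω) * (algebraMap (S n) K a * u 1 - algebraMap (S n) K b * u 0)) •
            pv K ![f, f']) := by
        rw [Yw_mulVec, smul_add, mulVec_add, mulVec_smul, mulVec_smul, ← hσ]
        congr 1
        · rw [← smul_assoc, ← Dv_smul', hσ, hv, Dv_mulVec]
          rfl
        · rw [smul_comm, hv, Dv_mulVec]
          rfl
      have e9 : g • ((ε * k) • Y').mulVec v = P.mulVec ((algebraMap (S n) K (ε * k)) •
          (pm K Y1).mulVec u) := by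
        have this : ∀ Z : M2 K, g • ((ε * k) • Z).mulVec v = (ε * k) • ((g • Z).mulVec v) := by
          intro Z
          rw [smul_mulVec, smul_mulVec, smul_comm]
        rw [this, e2, mulVec_smul, algebraMap_smul]
        congr 1
        rw [← mulVec_mulVec, ← mulVec_mulVec]
      have e10 : ((P.det * ω) * (algebraMap (S n) K f * u 1 - algebraMap (S n) K f' * u 0)) •
            pv K ![a, b] +
            ((P.det * ω) * (algebraMap (S n) K a * u 1 - algebraMap (S n) K b * u 0)) •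
            pv K ![f, f'] = (algebraMap (S n) K (ε * k)) • (pm K Y1).mulVec u := by
        have k1' := congrArg (algebraMap (S n) K) k1
        have k2' := congrArg (algebraMap (S n) K) k2
        have k3' := congrArg (algebraMap (S n) K) k3
        simp only [map_mul, map_neg, map_add, map_ofNat] at k1' k2' k3'
        rw [hε]
        funext i
        fin_cases i
        · show algebraMap (S n) K ε * (algebraMap (S n) K f * u 1 - algebraMap (S n) K f' * u 0) *
              algebraMap (S n) K a +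
            algebraMap (S n) K ε * (algebraMap (S n) K a * u 1 - algebraMap (S n) K b * u 0) *
              algebraMap (S n) K f = algebraMap (S n) K (ε * k) *
              (∑ j, algebraMap (S n) K (Y1 0 j) * u j)
          rw [Fin.sum_univ_two, map_mul]
          linear_combination -(algebraMap (S n) K ε * u 0) * k1' - (algebraMap (S n) K ε * u 1) * k3'
        · show algebraMap (S n) K ε * (algebraMap (S n) K f * u 1 - algebraMap (S n) K f' * u 0) *
              algebraMap (S n) K b +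
            algebraMap (S n) K ε * (algebraMap (S n) K a * u 1 - algebraMap (S n) K b * u 0) *
              algebraMap (S n) K f' = algebraMap (S n) K (ε * k) *
              (∑ j, algebraMap (S n) K (Y1 1 j) * u j)
          rw [Fin.sum_univ_two, map_mul, t1, map_neg]
          linear_combination -(algebraMap (S n) K ε * u 0) * k2' + (algebraMap (S n) K ε * u 1) * k1'
      have e11 : algebraMap (S n) K g • (Yw ω σ (P.mulVec (pv K ![a, b]))).mulVec v =
          algebraMap (S n) K g • ((ε * k) • Y').mulVec v := by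
        rw [algebraMap_smul, algebraMap_smul, e8, e9, e10]
      exact smul_right_injective _ hg0 e11
    refine Matrix.ext fun i j => ?_
    have := congrFun (e7 (Pi.single j 1)) i
    rwa [mulVec_e, mulVec_e] at this
  obtain ⟨N', X, hX, e'⟩ := xp_pow_mem ha hI
  refine ⟨(algebraMap (S n) K (xp I ^ (N' + N)))⁻¹ • X, mem_locI_of_smul hX _, ?_⟩
  have e2 : ∀ c : K, Yw ω σ (c • X) = c • Yw ω σ X := by
    intro c
    refine Matrix.ext fun i j => ?_
    show Dv ω σ (Pi.single j 1) * (c * X i) + Dv ω (c • X) (Pi.single j 1) * σ i =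
      c * (Dv ω σ (Pi.single j 1) * X i + Dv ω X (Pi.single j 1) * σ i)
    rw [Dv_ksmul']; ring
  rw [e2, e']
  show _ • (xp I ^ N' • (xp I ^ N • Y)) = Y
  rw [← mul_smul, ← pow_add, smul_eq_am (K := K), inv_smul_smul₀]
  exact am_ne (pow_ne_zero _ (xp_ne_zero _))

end Pool.Agent.K6.H64.VB
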