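import Pool.Agent.K6.H64.VC.Sec

/-! Dimension count with a section of a bundle of rank two (helper64). -/

set_option autoImplicit false
set_option linter.all false

open MvPolynomial H960VB Matrix

namespace Pool.Agent.K6.H64.VB

variable {n : ℕ} {K : Type} [Field K] [Algebra (S n) K] [IsFractionRing (S n) K]
  {M : Submodule (S n) (Fin 2 → K)} {ω : K} {σ : Fin 2 → K} {p e : ℤ}

theorem Dv_zero (ω : K) (v : Fin 2 → K) : Dv ω v 0 = 0 := by unfold Dv; simp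

/-- the values `D(σ, w)` -/
noncomputable def J1s (M : Submodule (S n) (Fin 2 → K)) (ω : K) (σ : Fin 2 → K) :
    Submodule (S n) K where
  carrier := {q | ∃ w ∈ M, Dv ω σ w = q}
  zero_mem' := ⟨0, Submodule.zero_mem _, Dv_zero _ _⟩
  add_mem' := by
    rintro a b ⟨Y, hY, rfl⟩ ⟨Z, hZ, rfl⟩
    exact ⟨Y + Z, Submodule.add_mem _ hY hZ, Dv_add _ _ _ _⟩
  smul_mem' := by
    rintro c a ⟨Y, hY, rfl⟩
    exact ⟨c • Y, Submodule.smul_mem _ _ hY, Dv_smul _ _ _ _⟩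

/-- the values `D(σ, Y σ)` -/
noncomputable def J2s (M : Submodule (S n) (Fin 2 → K)) (ω : K) (σ : Fin 2 → K) :
    Submodule (S n) K where
  carrier := {q | ∃ Y ∈ A0 M, Dv ω σ (Y.mulVec σ) = q}
  zero_mem' := ⟨0, Submodule.zero_mem _, by rw [zero_mulVec, Dv_zero]⟩
  add_mem' := by
    rintro a b ⟨Y, hY, rfl⟩ ⟨Z, hZ, rfl⟩
    exact ⟨Y + Z, Submodule.add_mem _ hY hZ, by rw [add_mulVec, Dv_add]⟩
  smul_mem' := by
    rintro c a ⟨Y, hY, rfl⟩
    exact ⟨c • Y, Submodule.smul_mem _ _ hY, by rw [smul_mulVec, Dv_smul]⟩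

theorem Sx.J1_le (h : Sx M ω σ p e) : J1s M ω σ ≤ O (n := n) K := by
  rintro q ⟨w, hw, rfl⟩
  exact h.int _ h.mem _ hw

theorem Sx.J2_le (h : Sx M ω σ p e) : J2s M ω σ ≤ O (n := n) K := by
  rintro q ⟨Y, hY, rfl⟩
  exact h.int _ h.mem _ (hY.2 _ h.mem)

theorem J1_loc {I : Finset (Fin (n + 1))} {w : Fin 2 → K} (hw : w ∈ locI I M) :
    Dv ω σ w ∈ locI I (J1s M ω σ) := by
  obtain ⟨N, hN⟩ := hw
  exact ⟨N, _, hN, Dv_smul _ _ _ _⟩

theorem J2_loc {I : Finset (Fin (n + 1))} {Y : M2 K} (hY : Y ∈ locI I (A0 M)) :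
    Dv ω σ (Y.mulVec σ) ∈ locI I (J2s M ω σ) := by
  obtain ⟨N, hN⟩ := hY
  exact ⟨N, _, hN, by rw [smul_mulVec, Dv_smul]⟩

theorem hm_Dv {k l : ℤ} {v w : Fin 2 → K} (hv : HmV n k v) (hw : HmV n l w) (hω : Hm n e ω) :
    Hm n (k + l + e) (Dv ω v w) := by
  unfold Dv
  have h1 := (hv 0).mul (hw 1)
  have h2 := (hv 1).mul (hw 0)
  exact (h1.sub h2).mul hω

theorem hm_single (j : Fin 2) : HmV n 0 (Pi.single j (1 : K) : Fin 2 → K) := by
  intro i
  rw [Pi.single_apply]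
  split_ifs
  · have : (1 : K) = algebraMap (S n) K 1 := (map_one _).symm
    rw [this]
    exact Hm.of_homZ (Or.inr ⟨0, rfl, isHomogeneous_one _ _⟩)
  · exact Hm.zero 0

theorem Sx.hm_Yw (h : Sx M ω σ p e) {k : ℤ} {w : Fin 2 → K} (hw : HmV n k w) :
    HmM n (k + (p + e)) (Yw ω σ w) := by
  intro i j
  show Hm n (k + (p + e)) (Dv ω σ (Pi.single j 1) * w i + Dv ω w (Pi.single j 1) * σ i)
  have h1 := (hm_Dv h.hσ (hm_single j) h.hω).mul (hw i)
  have h2 := (hm_Dv hw (hm_single j) h.hω).mul (h.hσ i)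
  rw [show p + 0 + e + k = k + (p + e) by ring] at h1
  rw [show k + 0 + e + p = k + (p + e) by ring] at h2
  exact h1.add h2

/-- the map `w ↦ D(σ, w)` -/
noncomputable def L1 (ω : K) (σ : Fin 2 → K) : (Fin 2 → K) →+ K where
  toFun := fun w => Dv ω σ w
  map_zero' := Dv_zero _ _
  map_add' := Dv_add _ _

/-- the map `Y ↦ D(σ, Y σ)` -/
noncomputable def L2 (ω : K) (σ : Fin 2 → K) : M2 K →+ K where
  toFun := fun Y => Dv ω σ (Y.mulVec σ)
  map_zero' := by rw [zero_mulVec, Dv_zero]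
  map_add' := fun Y Z => by rw [add_mulVec, Dv_add]

/-- the map `w ↦ Yw w` -/
noncomputable def L3 (ω : K) (σ : Fin 2 → K) : (Fin 2 → K) →+ M2 K where
  toFun := fun w => Yw ω σ w
  map_zero' := Yw_zero _ _
  map_add' := Yw_add _ _

theorem Sx.hm_L1 (h : Sx M ω σ p e) {k : ℤ} {w : Fin 2 → K} (hw : HmV n k w) :
    Hm n (k + (p + e)) (Dv ω σ w) := by
  have := hm_Dv h.hσ hw h.hω
  rwa [show p + k + e = k + (p + e) by ring] at this

theorem Sx.hm_L2 (h : Sx M ω σ p e) {k : ℤ} {Y : M2 K} (hY : HmM n k Y) :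
    Hm n (k + (2 * p + e)) (Dv ω σ (Y.mulVec σ)) := by
  have := hm_Dv h.hσ (hmV_mulVec hY h.hσ) h.hω
  rwa [show p + (k + p) + e = k + (2 * p + e) by ring] at this

theorem Dv_sum (ω : K) (σ : Fin 2 → K) {ι : Type} (s : Finset ι) (f : ι → Fin 2 → K) :
    Dv ω σ (∑ a ∈ s, f a) = ∑ a ∈ s, Dv ω σ (f a) := map_sum (L1 ω σ) f s

theorem Yw_sum (ω : K) (σ : Fin 2 → K) {ι : Type} (s : Finset ι) (f : ι → Fin 2 → K) :
    Yw ω σ (∑ a ∈ s, f a) = ∑ a ∈ s, Yw ω σ (f a) := map_sum (L3 ω σ) f s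

theorem C_smul_hmV {k : ℤ} (a : ℂ) {v : Fin 2 → K} (hv : HmV n k v) :
    HmV n k ((C a : S n) • v) := by
  rw [smul_eq_am (K := K)]
  have := hgrV.smul _ _ _ _ (Hm.of_homZ (K := K)
    (Or.inr ⟨0, rfl, isHomogeneous_C _ a⟩ : HomZ (C a : S n) ((0 : ℕ) : ℤ))) hv
  simpa using this

theorem HmV.sum {k : ℤ} {ι : Type} (s : Finset ι) {f : ι → Fin 2 → K} (h : ∀ a, HmV n k (f a)) :
    HmV n k (∑ a ∈ s, f a) := by
  classical
  induction s using Finset.induction_on with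
  | empty => rw [Finset.sum_empty]; exact hgrV.zero k
  | insert a s ha ih => rw [Finset.sum_insert ha]; exact hgrV.add (h a) ih

section chain

variable {k : ℤ} {U : Type} [AddCommGroup U] [Module ℂ U] [FiniteDimensional ℂ U]

/-- the first step of the filtration -/
def W1s (ω : K) (σ : Fin 2 → K) (p e : ℤ) {Y : U → Fin (n + 1) → Fin (n + 1) → M2 K}
    (hY : Fam M k Y) : Submodule ℂ U where
  carrier := {u | ∃ w : Fin (n + 1) → Fin (n + 1) → Fin 2 → K, Coc M w ∧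
    (∀ i j, HmV n (k - (p + e)) (w i j)) ∧ Cob (A0 M) (fun i j => Y u i j - Yw ω σ (w i j))}
  zero_mem' := ⟨0, ⟨fun i j => Submodule.zero_mem _, fun i j k => by simp⟩,
    fun i j => hgrV.zero _, 0, fun i => Submodule.zero_mem _, fun i j => by
      show Y 0 i j - Yw ω σ 0 = _
      rw [hY.zero, Yw_zero]; simp⟩
  add_mem' := by
    rintro u u' ⟨Z, h1, h2, h3⟩ ⟨Z', h1', h2', h3'⟩
    refine ⟨fun i j => Z i j + Z' i j, ⟨fun i j => Submodule.add_mem _ (h1.1 i j) (h1'.1 i j),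
      fun i j k => ?_⟩, fun i j => hgrV.add (h2 i j) (h2' i j), (h3.add h3').congr fun i j => ?_⟩
    · show Z i j + Z' i j + (Z j k + Z' j k) = Z i k + Z' i k
      rw [← h1.2 i j k, ← h1'.2 i j k]; abel
    · rw [hY.add, Yw_add]; abel
  smul_mem' := by
    rintro a u ⟨Z, h1, h2, h3⟩
    refine ⟨fun i j => (C a : S n) • Z i j, ⟨fun i j => Submodule.smul_mem _ _ (h1.1 i j),
      fun i j k => ?_⟩, fun i j => C_smul_hmV a (h2 i j), (h3.smul (C a)).congr fun i j => ?_⟩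
    · show (C a : S n) • Z i j + (C a : S n) • Z j k = (C a : S n) • Z i k
      rw [← smul_add, h1.2]
    · rw [hY.smul, Yw_smul, smul_sub]

/-- the second step of the filtration -/
def W2s {Y : U → Fin (n + 1) → Fin (n + 1) → M2 K} (hY : Fam M k Y) : Submodule ℂ U where
  carrier := {u | Cob (A0 M) (Y u)}
  zero_mem' := ⟨0, fun i => Submodule.zero_mem _, fun i j => by rw [hY.zero]; simp⟩
  add_mem' := by
    intro u u' h3 h3'
    refine (h3.add h3').congr fun i j => ?_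
    rw [hY.add]
  smul_mem' := by
    intro a u h3
    refine (h3.smul (C a)).congr fun i j => ?_
    rw [hY.smul]

theorem Sx.step1 (hn : 2 ≤ n) (h : Sx M ω σ p e) {Y : U → Fin (n + 1) → Fin (n + 1) → M2 K}
    (hY : Fam M k Y) {c : ℕ} (hc : H1J (J2s M ω σ) (k + (2 * p + e)) c) :
    Module.finrank ℂ U ≤ Module.finrank ℂ (W1s ω σ p e hY) + c := by
  rw [← finrank_top ℂ U]
  refine codim_le fun f _ => ?_
  -- the obstructions
  have hob : ∀ a, ∃ t : Fin (n + 1) → K, IsCFJ (J2s M ω σ) (k + (2 * p + e)) t ∧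
      ∀ i j, Dv ω σ ((Y (f a) i j).mulVec σ) = t j - t i := by
    intro a
    obtain ⟨t, ht, ht', hth⟩ := h1S (K := K) hn
      (t := fun i j => Dv ω σ ((Y (f a) i j).mulVec σ))
      (fun i j => locI_le h.J2_le (J2_loc ((hY.coc (f a)).1 i j)))
      (fun i j k => by
        show Dv ω σ ((Y (f a) i j).mulVec σ) + Dv ω σ ((Y (f a) j k).mulVec σ) =
          Dv ω σ ((Y (f a) i k).mulVec σ)
        rw [← Dv_add, ← add_mulVec, (hY.coc (f a)).2])
    exact ⟨t, ⟨ht, hth _ fun i j => h.hm_L2 (hY.hm (f a) i j),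
      fun i j => by rw [← ht']; exact J2_loc ((hY.coc (f a)).1 i j)⟩, ht'⟩
  choose t ht ht' using hob
  obtain ⟨l, hl0, F, hF, hFt⟩ := hc.rel t ht
  refine ⟨l, hl0, ?_⟩
  let Z : Fin (n + 1) → Fin (n + 1) → M2 K := fun i j => ∑ a, (C (l a) : S n) • Y (f a) i j
  have hZ : Coc (A0 M) Z := Coc.sum Finset.univ (fun a => hY.coc (f a)) fun a => C (l a)
  have hZh : ∀ i j, HmM n k (Z i j) := fun i j =>
    HmM.sum _ fun a => C_smul_hm (l a) (hY.hm (f a) i j)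
  let τ : Fin (n + 1) → K := fun i => ∑ a, algebraMap (S n) K (C (l a)) * t a i
  have hτ : ∀ i j, Dv ω σ ((Z i j).mulVec σ) = τ j - τ i := by
    intro i j
    show Dv ω σ ((∑ a, (C (l a) : S n) • Y (f a) i j).mulVec σ) = _
    rw [Matrix.sum_mulVec, Dv_sum, ← Finset.sum_sub_distrib]
    refine Finset.sum_congr rfl fun a _ => ?_
    rw [smul_mulVec, Dv_smul, ht', Algebra.smul_def]; ring
  have hτh : ∀ i, Hm n (k + (2 * p + e)) (τ i) := fun i => by
    refine Hm.sum _ fun a _ => ?_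
    have := (Hm.of_homZ (K := K)
      (Or.inr ⟨0, rfl, isHomogeneous_C _ (l a)⟩ : HomZ (C (l a) : S n) ((0 : ℕ) : ℤ))).mul
      ((ht a).2.1 i)
    simpa using this
  have hV : ∀ i, ∃ V ∈ locI {i} (A0 M), HmM n k V ∧
      Dv ω σ (V.mulVec σ) = τ i - algebraMap (S n) K F := by
    intro i
    obtain ⟨N, V0, hV0, e0⟩ := hFt i
    let V1 : M2 K := (algebraMap (S n) K (xp {i} ^ N))⁻¹ • V0
    have hV1 : V1 ∈ locI {i} (A0 M) := mem_locI_of_smul hV0 N
    have e1 : L2 ω σ V1 = τ i - algebraMap (S n) K F := by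
      show Dv ω σ (((algebraMap (S n) K (xp {i} ^ N))⁻¹ • V0).mulVec σ) = _
      rw [smul_mulVec, Dv_ksmul, e0, smul_eq_am (K := K), smul_eq_mul, inv_mul_cancel_left₀]
      exact am_ne (pow_ne_zero _ (xp_ne_zero _))
    obtain ⟨V, hV, hVh, e2⟩ := (h.geo.grA.loc hgrM {i}).sel hgrM hgrK (L := L2 ω σ)
      (d := 2 * p + e) (fun m v hv => h.hm_L2 hv) hV1 (k := k) (by
        rw [e1]; exact (hτh i).sub (Hm.of_homZ hF))
    exact ⟨V, hV, hVh, by rw [← e1]; exact e2⟩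
  choose V hV hVh hVt using hV
  have hY' : ∀ i j, Z i j - (V j - V i) ∈ locI {i, j} (A0 M) := fun i j =>
    Submodule.sub_mem _ (hZ.1 i j) (Submodule.sub_mem _
      (locI_mono (by simp) _ (hV j)) (locI_mono (by simp) _ (hV i)))
  have hX : ∀ i j, ∃ w ∈ locI {i, j} M, HmV n (k - (p + e)) w ∧
      Yw ω σ w = Z i j - (V j - V i) := by
    intro i j
    obtain ⟨X0, hX0, e0⟩ := h.K2 (by simp) (hY' i j) (by
      rw [sub_mulVec, sub_mulVec, Dv_sub, Dv_sub, hVt, hVt, hτ]; ring)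
    obtain ⟨X, hX, hXh, e1⟩ := (h.geo.grM.loc hgrV {i, j}).sel hgrV hgrM (L := L3 ω σ)
      (d := p + e) (fun m v hv => h.hm_Yw hv) hX0 (k := k - (p + e)) (by
        show HmM n (k - (p + e) + (p + e)) (Yw ω σ X0)
        rw [e0, sub_add_cancel]
        exact hgrM.sub _ _ _ (hZh i j) (hgrM.sub _ _ _ (hVh j) (hVh i)))
    exact ⟨X, hX, hXh, by rw [← e0]; exact e1⟩
  choose w hw hwh hwY using hX
  refine ⟨w, ⟨hw, fun i j m => ?_⟩, hwh, V, hV, fun i j => ?_⟩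
  · have e1 : Yw ω σ (w i j + w j m - w i m) = 0 := by
      rw [Yw_sub, Yw_add, hwY, hwY, hwY, ← hZ.2 i j m]; abel
    exact sub_eq_zero.1 (Yw_inj h.ωne (two_ne n K) h.ne e1)
  · show Y (∑ a, l a • f a) i j - Yw ω σ (w i j) = V j - V i
    rw [hY.sum, hwY]
    show Z i j - (Z i j - (V j - V i)) = V j - V i
    abel

theorem Sx.step2 (hn : 2 ≤ n) (h : Sx M ω σ p e) {Y : U → Fin (n + 1) → Fin (n + 1) → M2 K}
    (hY : Fam M k Y) {c : ℕ} (hc : H1J (J1s M ω σ) k c) :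
    Module.finrank ℂ (W1s ω σ p e hY) ≤ Module.finrank ℂ (W2s hY) + c := by
  refine codim_le fun f hf => ?_
  choose w hw hwh hwc using hf
  have ek : k - (p + e) + (p + e) = k := by ring
  have hob : ∀ a, ∃ t : Fin (n + 1) → K, IsCFJ (J1s M ω σ) k t ∧
      ∀ i j, Dv ω σ (w a i j) = t j - t i := by
    intro a
    obtain ⟨t, ht, ht', hth⟩ := h1S (K := K) hn (t := fun i j => Dv ω σ (w a i j))
      (fun i j => locI_le h.J1_le (J1_loc ((hw a).1 i j)))
      (fun i j k => by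
        show Dv ω σ (w a i j) + Dv ω σ (w a j k) = Dv ω σ (w a i k)
        rw [← Dv_add, (hw a).2])
    exact ⟨t, ⟨ht, hth _ fun i j => by rw [← ek]; exact h.hm_L1 (hwh a i j),
      fun i j => by rw [← ht']; exact J1_loc ((hw a).1 i j)⟩, ht'⟩
  choose t ht ht' using hob
  obtain ⟨l, hl0, F, hF, hFt⟩ := hc.rel t ht
  refine ⟨l, hl0, ?_⟩
  let Z : Fin (n + 1) → Fin (n + 1) → Fin 2 → K := fun i j => ∑ a, (C (l a) : S n) • w a i j
  have hZ1 : ∀ i j, Z i j ∈ locI {i, j} M := fun i j =>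
    Submodule.sum_mem _ fun a _ => Submodule.smul_mem _ _ ((hw a).1 i j)
  have hZ2 : ∀ i j m, Z i j + Z j m = Z i m := fun i j m => by
    show ∑ a, (C (l a) : S n) • w a i j + ∑ a, (C (l a) : S n) • w a j m =
      ∑ a, (C (l a) : S n) • w a i m
    rw [← Finset.sum_add_distrib]
    refine Finset.sum_congr rfl fun a _ => ?_
    rw [← smul_add, (hw a).2]
  let τ : Fin (n + 1) → K := fun i => ∑ a, algebraMap (S n) K (C (l a)) * t a i
  have hτ : ∀ i j, Dv ω σ (Z i j) = τ j - τ i := by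
    intro i j
    show Dv ω σ (∑ a, (C (l a) : S n) • w a i j) = _
    rw [Dv_sum, ← Finset.sum_sub_distrib]
    refine Finset.sum_congr rfl fun a _ => ?_
    rw [Dv_smul, ht', Algebra.smul_def]; ring
  have hV : ∀ i, ∃ V ∈ locI {i} M, Dv ω σ V = τ i - algebraMap (S n) K F := by
    intro i
    obtain ⟨N, V0, hV0, e0⟩ := hFt i
    refine ⟨(algebraMap (S n) K (xp {i} ^ N))⁻¹ • V0, mem_locI_of_smul hV0 N, ?_⟩
    rw [Dv_ksmul, e0, smul_eq_am (K := K), smul_eq_mul, inv_mul_cancel_left₀]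
    exact am_ne (pow_ne_zero _ (xp_ne_zero _))
  choose V hV hVt using hV
  have hX : ∀ i j, ∃ c ∈ locI {i, j} (O (n := n) K), Z i j - (V j - V i) = c • σ := by
    intro i j
    refine h.K1 (by simp) (Submodule.sub_mem _ (hZ1 i j) (Submodule.sub_mem _
      (locI_mono (by simp) _ (hV j)) (locI_mono (by simp) _ (hV i)))) ?_
    rw [Dv_sub, Dv_sub, hVt, hVt, hτ]; ring
  choose g hg hgσ using hX
  obtain ⟨s, hs, hs', -⟩ := h1S (K := K) hn hg (fun i j m => by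
    have e1 : (g i j + g j m - g i m) • σ = 0 := by
      rw [sub_smul, add_smul, ← hgσ, ← hgσ, ← hgσ, ← hZ2 i j m]; abel
    exact sub_eq_zero.1 ((smul_eq_zero.1 e1).resolve_right h.ne))
  -- the vectors are a coboundary
  have hcob : ∀ i j, Z i j = (V j + s j • σ) - (V i + s i • σ) := by
    intro i j
    have e1 := hgσ i j
    rw [hs', sub_smul] at e1
    have e2 : Z i j = (V j - V i) + (s j • σ - s i • σ) := by rw [← e1]; abel
    rw [e2]; abel
  have hfin : Cob (A0 M) (fun i j => Yw ω σ (Z i j)) := by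
    refine ⟨fun i => Yw ω σ (V i + s i • σ), fun i => h.Yw_mem (Submodule.add_mem _ (hV i)
      (smul_mem_locI (hs i) h.mem)), fun i j => ?_⟩
    show Yw ω σ (Z i j) = Yw ω σ (V j + s j • σ) - Yw ω σ (V i + s i • σ)
    rw [hcob, Yw_sub]
  have e1 : Cob (A0 M) (fun i j => ∑ a, (C (l a) : S n) • (Y (f a) i j - Yw ω σ (w a i j))) :=
    Cob.sum Finset.univ fun a => (hwc a).smul (C (l a))
  show Cob (A0 M) (Y (∑ a, l a • f a))
  refine (e1.add hfin).congr fun i j => ?_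
  rw [hY.sum]
  show ∑ a, (C (l a) : S n) • (Y (f a) i j - Yw ω σ (w a i j)) +
    Yw ω σ (∑ a, (C (l a) : S n) • w a i j) = _
  rw [Yw_sum]
  simp only [smul_sub, Finset.sum_sub_distrib, Yw_smul]
  abel

/-- the dimension count -/
theorem Sx.chain (hn : 2 ≤ n) (h : Sx M ω σ p e) {Y : U → Fin (n + 1) → Fin (n + 1) → M2 K}
    (hY : Fam M k Y) {c c' : ℕ} (hc : H1J (J1s M ω σ) k c)
    (hc' : H1J (J2s M ω σ) (k + (2 * p + e)) c') :
    ∃ W : Submodule ℂ U, Module.finrank ℂ U ≤ Module.finrank ℂ W + (c + c') ∧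
      ∀ u ∈ W, Cob (A0 M) (Y u) := by
  have h1 := h.step1 hn hY hc'
  have h2 := h.step2 hn hY hc
  exact ⟨W2s hY, by omega, fun u hu => hu⟩

end chain

end Pool.Agent.K6.H64.VB
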