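import Pool.Agent.K6.H64.VC.SecChain

/-! Sections of bundles of rank two: the two inequalities (helper64). -/

set_option autoImplicit false
set_option linter.all false

open MvPolynomial H960VB Matrix

namespace Pool.Agent.K6.H64.VB

variable {n : ℕ}

/-- the first Chern class of `E`, by a nowhere vanishing generator `P` of the determinant -/
def C1P (E : Bundle2 n) (c₁ : ℤ) (P : Fin E.a → Fin E.a → S n) : Prop :=
  (∀ i j, HomZ (P i j) (E.β i + E.β j - c₁)) ∧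
  (∀ x : Fin (n + 1) → ℂ, x ≠ 0 → ∃ i j, eval x (P i j) ≠ 0) ∧
  ∀ m m' G G', E.IsSection m G → E.IsSection m' G' → ∃ κ : S n, ∀ i j,
    wedge G G' i j = κ * P i j

/-- the scheme of zeros of the section has codimension two -/
def Cod2 (E : Bundle2 n) (G₀ : Vec E) : Prop :=
  ∀ x : Fin (n + 1) → ℂ, x ≠ 0 → ∃ (m m' : ℤ) (G G' : Vec E) (i j : Fin E.a),
    E.IsSection m G ∧ E.IsSection m' G' ∧ eval x (wedge G G' i j) ≠ 0 ∧
    Reg2 x (wedge G₀ G' i j) (wedge G G₀ i j)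

variable {E : Bundle2 n} {K : Type} [Field K] [Algebra (S n) K] [IsFractionRing (S n) K]

theorem wedge_sum_left {a : ℕ} {ι : Type} (s : Finset ι) (f : ι → Fin a → S n) (G : Fin a → S n)
    (i j : Fin a) : wedge (∑ k ∈ s, f k) G i j = ∑ k ∈ s, wedge (f k) G i j := by
  unfold wedge
  rw [Finset.sum_apply, Finset.sum_apply, Finset.sum_mul, Finset.sum_mul,
    ← Finset.sum_sub_distrib]

theorem wedge_sum_right {a : ℕ} {ι : Type} (s : Finset ι) (f : ι → Fin a → S n) (G : Fin a → S n)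
    (i j : Fin a) : wedge G (∑ k ∈ s, f k) i j = ∑ k ∈ s, wedge G (f k) i j := by
  unfold wedge
  rw [Finset.sum_apply, Finset.sum_apply, Finset.mul_sum, Finset.mul_sum,
    ← Finset.sum_sub_distrib]

theorem C1P.all {c₁ : ℤ} {P : Fin E.a → Fin E.a → S n} (h : C1P E c₁ P) {A B : Vec E}
    (hA : A ∈ Mp E) (hB : B ∈ Mp E) : ∃ κ : S n, ∀ i j, wedge A B i j = κ * P i j := by
  classical
  obtain ⟨s, f, hf, rfl⟩ := Mp_dec hA
  obtain ⟨t, g, hg, rfl⟩ := Mp_dec hB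
  have h1 : ∀ k l, ∃ κ : S n, k ∈ s → l ∈ t → ∀ i j, wedge (f k) (g l) i j = κ * P i j := by
    intro k l
    by_cases hk : k ∈ s
    · by_cases hl : l ∈ t
      · obtain ⟨κ, hκ⟩ := h.2.2 _ _ _ _ (hf k hk) (hg l hl)
        exact ⟨κ, fun _ _ => hκ⟩
      · exact ⟨0, fun _ h' => absurd h' hl⟩
    · exact ⟨0, fun h' => absurd h' hk⟩
  choose κ hκ using h1
  refine ⟨∑ k ∈ s, ∑ l ∈ t, κ k l, fun i j => ?_⟩
  rw [wedge_sum_left, Finset.sum_mul]
  refine Finset.sum_congr rfl fun k hk => ?_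
  rw [wedge_sum_right, Finset.sum_mul]
  exact Finset.sum_congr rfl fun l hl => hκ k l hk hl i j

/-- from local to global -/
theorem loc_of_local {V : Type*} [AddCommGroup V] [Module (S n) V] {J : Submodule (S n) V} {q : V}
    (h : ∀ x : Fin (n + 1) → ℂ, x ≠ 0 → ∃ g : S n, eval x g ≠ 0 ∧ g • q ∈ J) (l : Fin (n + 1)) :
    q ∈ locI {l} J := by
  let 𝔟 : Ideal (S n) := {
    carrier := {f | f • q ∈ J}
    zero_mem' := by
      show (0 : S n) • q ∈ J
      rw [zero_smul]; exact Submodule.zero_mem _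
    add_mem' := by
      intro a b ha hb
      show (a + b) • q ∈ J
      rw [add_smul]; exact Submodule.add_mem _ ha hb
    smul_mem' := by
      intro r a ha
      show (r • a) • q ∈ J
      rw [smul_eq_mul, mul_smul]; exact Submodule.smul_mem _ _ ha }
  refine xp_pow_mem (𝔞 := 𝔟) (fun x hx => ?_) (Finset.singleton_nonempty l)
  obtain ⟨g, hg, hgq⟩ := h x hx
  exact ⟨g, hgq, hg⟩

/-- the data of the section -/
theorem sx_of (hn : 1 ≤ n) (F : Frm E) {c₁ : ℤ} {P : Fin E.a → Fin E.a → S n} (hP : C1P E c₁ P)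
    {m : ℤ} {G₀ : Vec E} (hG₀ : E.IsSection m G₀) (hc : Cod2 E G₀) :
    ∃ ω : K, Sx (F.MM K) ω (F.ρ K G₀) (m - F.m) (2 * F.m + c₁) ∧
      ∀ A B : Vec E, A ∈ Mp E → B ∈ Mp E → ∀ k l,
        P k l • Dv ω (F.ρ K A) (F.ρ K B) = algebraMap (S n) K (wedge A B k l) := by
  obtain ⟨κ, hκ⟩ := hP.2.2 _ _ _ _ (F.sec 0) (F.sec 1)
  let ω : K := algebraMap (S n) K κ
  have hκ0 : κ ≠ 0 := by
    rintro rfl
    have := hκ F.i F.j
    rw [zero_mul] at this
    exact F.ne this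
  have hx1 : (fun _ => 1 : Fin (n + 1) → ℂ) ≠ 0 := by
    intro h
    have := congrFun h 0
    simp at this
  obtain ⟨i₀, j₀, hP0'⟩ := hP.2.1 _ hx1
  have hP0 : P i₀ j₀ ≠ 0 := am_eval_ne hP0'
  have hD : ∀ A B : Vec E, A ∈ Mp E → B ∈ Mp E → ∀ k l,
      P k l • Dv ω (F.ρ K A) (F.ρ K B) = algebraMap (S n) K (wedge A B k l) := by
    intro A B hA hB k l
    have h1 := F.T_wedge (K := K) (F.ρ K A) (F.ρ K B) k l
    rw [F.T_ρ hA, F.T_ρ hA, F.T_ρ hB, F.T_ρ hB, hκ, map_mul] at h1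
    unfold wedge Dv
    rw [map_sub, map_mul, map_mul, h1, Algebra.smul_def]
    ring
  have hω : Hm n (2 * F.m + c₁) ω := by
    refine Hm.of_homZ ?_
    obtain ⟨d', hd', hPh⟩ := (hP.1 i₀ j₀).resolve_left hP0
    refine homZ_of_mul hP0 hPh ?_
    rw [← hκ]
    have := hm_wedge (F.sec 0) (F.sec 1) i₀ j₀
    rwa [show 2 * F.m + c₁ + (d' : ℤ) = E.β i₀ + E.β j₀ + F.m + F.m by rw [hd']; ring]
  have hGM := mem_Mp_of_section hG₀
  have hval : ∀ A B : Vec E, A ∈ Mp E → B ∈ Mp E → ∀ κ' : S n,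
      (∀ i j, wedge A B i j = κ' * P i j) → Dv ω (F.ρ K A) (F.ρ K B) = algebraMap (S n) K κ' := by
    intro A B hA hB κ' hκ'
    have h1 := hD A B hA hB i₀ j₀
    rw [hκ', map_mul, Algebra.smul_def, mul_comm (algebraMap (S n) K κ')] at h1
    exact mul_left_cancel₀ (am_ne hP0) h1
  refine ⟨ω, ⟨F.geo hn, ⟨G₀, hGM, rfl⟩, ?_, am_ne hκ0, F.hm_ρ hG₀, hω, ?_, ?_⟩, hD⟩
  · -- the section is not zero
    intro h0
    have hG0 : G₀ = 0 := F.ρ_inj (K := K) hGM (Submodule.zero_mem _) (by rw [h0, F.ρ_zero])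
    obtain ⟨a, a', G, G', i, j, -, -, -, hr⟩ := hc _ hx1
    have e1 : wedge G₀ G' i j = 0 := by rw [hG0]; unfold wedge; simp
    have e2 : wedge G G₀ i j = 0 := by rw [hG0]; unfold wedge; simp
    rw [e1, e2] at hr
    rcases hr with (hr | hr) | ⟨hr, -⟩
    · exact hr (map_zero _)
    · exact hr (map_zero _)
    · exact hr rfl
  · rintro _ ⟨A, hA, rfl⟩ _ ⟨B, hB, rfl⟩
    obtain ⟨κ', hκ'⟩ := hP.all hA hB
    exact ⟨κ', (hval A B hA hB κ' hκ').symm⟩
  · intro x hx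
    obtain ⟨a, a', G, G', i, j, hG, hG', hw, hr⟩ := hc x hx
    obtain ⟨κ', hκ'⟩ := hP.2.2 _ _ _ _ hG hG'
    have hGm := mem_Mp_of_section hG
    have hGm' := mem_Mp_of_section hG'
    refine ⟨F.mat K G G', wedge G G' i j, wedge G₀ G' i j, wedge G G₀ i j, κ',
      F.isChart hGm hGm' hw, F.chart_ρ hGm hGm' i j hGM, ?_, ?_, hr⟩
    · have e00 : F.mat K G G' 0 0 = F.ρ K G 0 := rfl
      have e01 : F.mat K G G' 0 1 = F.ρ K G' 0 := rfl
      have e10 : F.mat K G G' 1 0 = F.ρ K G 1 := rfl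
      have e11 : F.mat K G G' 1 1 = F.ρ K G' 1 := rfl
      rw [← hval G G' hGm hGm' κ' hκ', Matrix.det_fin_two, e00, e01, e10, e11]
      unfold Dv
      ring
    · intro h0
      apply hw
      rw [hκ', map_mul, h0, zero_mul]

section ideals

variable (F : Frm E) {c₁ : ℤ} {P : Fin E.a → Fin E.a → S n} {m p e : ℤ} {G₀ : Vec E} {ω : K}

/-- the ideal of the zeros of the section -/
noncomputable def iX (G₀ : Vec E) : Ideal (S n) := Ideal.span (Set.range G₀)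

theorem wedge_mem_iX (G₀ G : Vec E) (i j : Fin E.a) : wedge G₀ G i j ∈ iX G₀ :=
  sub_mem (Ideal.mul_mem_right _ _ (Ideal.subset_span ⟨i, rfl⟩))
    (Ideal.mul_mem_right _ _ (Ideal.subset_span ⟨j, rfl⟩))

theorem wedge_mem_iX' (G₀ G : Vec E) (i j : Fin E.a) : wedge G G₀ i j ∈ iX G₀ :=
  sub_mem (Ideal.mul_mem_left _ _ (Ideal.subset_span ⟨j, rfl⟩))
    (Ideal.mul_mem_left _ _ (Ideal.subset_span ⟨i, rfl⟩))

theorem J1_le_iX (hP : C1P E c₁ P) (hGM : G₀ ∈ Mp E)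
    (hD : ∀ A B : Vec E, A ∈ Mp E → B ∈ Mp E → ∀ k l,
      P k l • Dv ω (F.ρ K A) (F.ρ K B) = algebraMap (S n) K (wedge A B k l)) (l : Fin (n + 1)) :
    J1s (F.MM K) ω (F.ρ K G₀) ≤ locI {l} (iK (iX G₀) K) := by
  rintro _ ⟨_, ⟨B, hB, rfl⟩, rfl⟩
  refine loc_of_local (fun x hx => ?_) l
  obtain ⟨i, j, hij⟩ := hP.2.1 x hx
  refine ⟨P i j, hij, ?_⟩
  rw [hD G₀ B hGM hB, am_mem_iK]
  exact wedge_mem_iX _ _ _ _

theorem iX_local (hc : Cod2 E G₀) (hGM : G₀ ∈ Mp E)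
    (hD : ∀ A B : Vec E, A ∈ Mp E → B ∈ Mp E → ∀ k l,
      P k l • Dv ω (F.ρ K A) (F.ρ K B) = algebraMap (S n) K (wedge A B k l))
    {f : S n} (hf : f ∈ iX G₀) (x : Fin (n + 1) → ℂ) (hx : x ≠ 0) :
    ∃ g : S n, eval x g ≠ 0 ∧ algebraMap (S n) K (g * f) ∈ J1s (F.MM K) ω (F.ρ K G₀) := by
  obtain ⟨a, a', G, G', i, j, hG, hG', hw, -⟩ := hc x hx
  have hGm := mem_Mp_of_section hG
  have hGm' := mem_Mp_of_section hG'
  refine ⟨wedge G G' i j, hw, ?_⟩
  have hmem : ∀ (r : S n), (∃ A ∈ Mp E, algebraMap (S n) K r =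
      P i j • Dv ω (F.ρ K G₀) (F.ρ K A)) → algebraMap (S n) K r ∈ J1s (F.MM K) ω (F.ρ K G₀) := by
    rintro r ⟨A, hA, e⟩
    rw [e]
    exact Submodule.smul_mem _ _ ⟨_, ⟨A, hA, rfl⟩, rfl⟩
  have h1 := hmem (wedge G₀ G' i j) ⟨G', hGm', (hD G₀ G' hGM hGm' i j).symm⟩
  have h2 := hmem (wedge G₀ G i j) ⟨G, hGm, (hD G₀ G hGM hGm i j).symm⟩
  refine Submodule.span_induction (p := fun f _ => algebraMap (S n) K (wedge G G' i j * f) ∈
    J1s (F.MM K) ω (F.ρ K G₀)) ?_ ?_ ?_ ?_ hf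
  · rintro _ ⟨k, rfl⟩
    have e1 : wedge G G' i j * G₀ k = G k * wedge G₀ G' i j + (-(G' k)) * wedge G₀ G i j := by
      rw [cramer hGm hGm' hGM i j k]
      unfold wedge
      ring
    rw [e1, map_add, map_mul, map_mul]
    refine Submodule.add_mem _ ?_ ?_
    · have := Submodule.smul_mem _ (G k) h1
      rwa [Algebra.smul_def] at this
    · have := Submodule.smul_mem _ (-(G' k)) h2
      rwa [Algebra.smul_def] at this
  · rw [mul_zero, map_zero]; exact Submodule.zero_mem _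
  · intro a b _ _ ha hb
    rw [mul_add, map_add]; exact Submodule.add_mem _ ha hb
  · intro r a _ ha
    have := Submodule.smul_mem _ r ha
    rw [Algebra.smul_def, ← map_mul] at this
    rwa [smul_eq_mul, mul_left_comm]

theorem iX_le_J1 (hc : Cod2 E G₀) (hGM : G₀ ∈ Mp E)
    (hD : ∀ A B : Vec E, A ∈ Mp E → B ∈ Mp E → ∀ k l,
      P k l • Dv ω (F.ρ K A) (F.ρ K B) = algebraMap (S n) K (wedge A B k l)) (l : Fin (n + 1)) :
    iK (iX G₀) K ≤ locI {l} (J1s (F.MM K) ω (F.ρ K G₀)) := by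
  rintro _ ⟨f, hf, rfl⟩
  refine loc_of_local (fun x hx => ?_) l
  obtain ⟨g, hg, hgf⟩ := iX_local F hc hGM hD hf x hx
  refine ⟨g, hg, ?_⟩
  have e : g • (Algebra.linearMap (S n) K) f = algebraMap (S n) K (g * f) := by
    rw [map_mul, Algebra.smul_def]; rfl
  rw [e]
  exact hgf

theorem J2_le_iX (h : Sx (F.MM K) ω (F.ρ K G₀) p e) (hc : Cod2 E G₀) (hGM : G₀ ∈ Mp E)
    (l : Fin (n + 1)) :
    J2s (F.MM K) ω (F.ρ K G₀) ≤ locI {l} (iK (iX G₀ ^ 2) K) := by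
  rintro _ ⟨Y, hY, rfl⟩
  refine loc_of_local (fun x hx => ?_) l
  obtain ⟨a, a', G, G', i, j, hG, hG', hw, -⟩ := hc x hx
  have hGm := mem_Mp_of_section hG
  have hGm' := mem_Mp_of_section hG'
  refine ⟨wedge G G' i j * wedge G G' i j, by rw [map_mul]; exact mul_ne_zero hw hw, ?_⟩
  let σ := F.ρ K G₀
  let f := wedge G₀ G' i j
  let f' := wedge G G₀ i j
  have hσ : wedge G G' i j • σ = f • F.ρ K G + f' • F.ρ K G' := by
    rw [F.chart_ρ hGm hGm' i j hGM, F.mat_pv, F.ρ_add, F.ρ_smul, F.ρ_smul]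
    rfl
  have hu : F.ρ K G ∈ F.MM K := ⟨G, hGm, rfl⟩
  have hu' : F.ρ K G' ∈ F.MM K := ⟨G', hGm', rfl⟩
  obtain ⟨d1, h1⟩ := mem_O.1 (h.int _ hu _ (hY.2 _ hu))
  obtain ⟨d2, h2⟩ := mem_O.1 (h.int _ hu _ (hY.2 _ hu'))
  obtain ⟨d3, h3⟩ := mem_O.1 (h.int _ hu' _ (hY.2 _ hu))
  obtain ⟨d4, h4⟩ := mem_O.1 (h.int _ hu' _ (hY.2 _ hu'))
  have e1 : (wedge G G' i j * wedge G G' i j) • Dv ω σ (Y.mulVec σ) =
      algebraMap (S n) K (d1 * (f * f) + d2 * (f * f') + d3 * (f' * f) + d4 * (f' * f')) := by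
    have e2 : (wedge G G' i j * wedge G G' i j) • Dv ω σ (Y.mulVec σ) =
        Dv ω (wedge G G' i j • σ) (Y.mulVec (wedge G G' i j • σ)) := by
      rw [mul_smul, mulVec_smul, Dv_smul, Dv_smul']
    have e3 : ∀ a b c : Fin 2 → K, Dv ω (a + b) c = Dv ω a c + Dv ω b c := by
      intro a b c; unfold Dv; simp only [Pi.add_apply]; ring
    rw [e2, hσ, mulVec_add, mulVec_smul, mulVec_smul, Dv_add, e3, e3]
    simp only [Dv_smul, Dv_smul', ← h1, ← h2, ← h3, ← h4]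
    simp only [Algebra.smul_def, map_add, map_mul]
    ring
  show (wedge G G' i j * wedge G G' i j) • Dv ω σ (Y.mulVec σ) ∈ iK (iX G₀ ^ 2) K
  rw [e1, am_mem_iK, sq]
  have hf : f ∈ iX G₀ := wedge_mem_iX _ _ _ _
  have hf' : f' ∈ iX G₀ := wedge_mem_iX' _ _ _ _
  exact add_mem (add_mem (add_mem (Ideal.mul_mem_left _ _ (Ideal.mul_mem_mul hf hf))
    (Ideal.mul_mem_left _ _ (Ideal.mul_mem_mul hf hf')))
    (Ideal.mul_mem_left _ _ (Ideal.mul_mem_mul hf' hf)))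
    (Ideal.mul_mem_left _ _ (Ideal.mul_mem_mul hf' hf'))

/-- products of values of `D(σ, ·)` -/
theorem J1_mul {M : Submodule (S n) (Fin 2 → K)} {σ : Fin 2 → K} (h : Sx M ω σ p e) {a b : K}
    (ha : a ∈ J1s M ω σ) (hb : b ∈ J1s M ω σ) : a * b ∈ J2s M ω σ := by
  obtain ⟨w, hw, rfl⟩ := ha
  obtain ⟨w', hw', rfl⟩ := hb
  -- twice the endomorphism
  have hmem : Yw ω w w' ∈ A0 M := by
    refine ⟨Yw_trace _ _ _, fun v hv => ?_⟩
    rw [Yw_mulVec]
    obtain ⟨a, ha⟩ := mem_O.1 (h.int w hw v hv)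
    obtain ⟨b, hb⟩ := mem_O.1 (h.int w' hw' v hv)
    rw [← ha, ← hb, algebraMap_smul, algebraMap_smul]
    exact M.add_mem (M.smul_mem _ hw') (M.smul_mem _ hw)
  have hhalf : algebraMap (S n) K (MvPolynomial.C (1 / 2)) * 2 = 1 := by
    rw [show (2 : K) = algebraMap (S n) K (MvPolynomial.C 2) by
      rw [show (MvPolynomial.C 2 : S n) = 2 from map_ofNat _ _, map_ofNat],
      ← map_mul, ← MvPolynomial.C_mul]
    norm_num
  refine ⟨(-(MvPolynomial.C (1 / 2)) : S n) • Yw ω w w', Submodule.smul_mem _ _ hmem, ?_⟩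
  rw [smul_mulVec, Dv_smul, Yw_mulVec, Dv_add, Dv_ksmul, Dv_ksmul, Algebra.smul_def, map_neg]
  have e1 : Dv ω w σ = -Dv ω σ w := by unfold Dv; ring
  have e2 : Dv ω w' σ = -Dv ω σ w' := by unfold Dv; ring
  rw [e1, e2]
  linear_combination (Dv ω σ w * Dv ω σ w') * hhalf

theorem iX_le_J2 (h : Sx (F.MM K) ω (F.ρ K G₀) p e) (hc : Cod2 E G₀) (hGM : G₀ ∈ Mp E)
    (hD : ∀ A B : Vec E, A ∈ Mp E → B ∈ Mp E → ∀ k l,
      P k l • Dv ω (F.ρ K A) (F.ρ K B) = algebraMap (S n) K (wedge A B k l)) (l : Fin (n + 1)) :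
    iK (iX G₀ ^ 2) K ≤ locI {l} (J2s (F.MM K) ω (F.ρ K G₀)) := by
  rintro _ ⟨f, hf, rfl⟩
  refine loc_of_local (fun x hx => ?_) l
  have key : ∃ g : S n, eval x g ≠ 0 ∧
      algebraMap (S n) K (g * f) ∈ J2s (F.MM K) ω (F.ρ K G₀) := by
    change f ∈ iX G₀ ^ 2 at hf
    rw [sq] at hf
    refine Submodule.mul_induction_on hf (fun a ha b hb => ?_) fun a b ha hb => ?_
    · obtain ⟨g, hg, hga⟩ := iX_local F hc hGM hD ha x hx
      obtain ⟨g', hg', hgb⟩ := iX_local F hc hGM hD hb x hx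
      refine ⟨g * g', by rw [map_mul]; exact mul_ne_zero hg hg', ?_⟩
      have := J1_mul h hga hgb
      rw [← map_mul] at this
      rwa [show g * g' * (a * b) = g * a * (g' * b) by ring]
    · obtain ⟨g, hg, hga⟩ := ha
      obtain ⟨g', hg', hgb⟩ := hb
      refine ⟨g * g', by rw [map_mul]; exact mul_ne_zero hg hg', ?_⟩
      have h1 := Submodule.smul_mem _ g' hga
      have h2 := Submodule.smul_mem _ g hgb
      rw [Algebra.smul_def, ← map_mul] at h1 h2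
      have h3 := Submodule.add_mem _ h1 h2
      rw [← map_add] at h3
      rwa [show g * g' * (a + b) = g' * (g * a) + g * (g' * b) by ring]
  obtain ⟨g, hg, hgf⟩ := key
  refine ⟨g, hg, ?_⟩
  have e : g • (Algebra.linearMap (S n) K) f = algebraMap (S n) K (g * f) := by
    rw [map_mul, Algebra.smul_def]; rfl
  rw [e]
  exact hgf

end ideals

/-- the first inequality -/
theorem sec1 (hn : 4 ≤ n) (hE : ¬ E.Splits) {c₁ : ℤ} {P : Fin E.a → Fin E.a → S n}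
    (hP : C1P E c₁ P) {m : ℤ} {G₀ : Vec E} (hG₀ : E.IsSection m G₀) (hc : Cod2 E G₀) {a b : ℕ}
    (ha : H1LeI (iX G₀) 0 a) (hb : H1LeI (iX G₀ ^ 2) (c₁ + 2 * m) b) :
    (n + 1) ^ 2 ≤ 2 + (a + b) := by
  classical
  obtain ⟨F⟩ := exists_frm (by omega) E
  let K := FractionRing (S n)
  obtain ⟨ω, hS, hD⟩ := sx_of (K := K) (by omega) F hP hG₀ hc
  have hGM := mem_Mp_of_section hG₀
  have hG := F.geo (K := K) (by omega)
  choose θ hθ using fun a : Fin (n + 1) × Fin (n + 1) =>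
    exists_ext K ((X a.2 : S n) • pderiv a.1 : Derivation ℂ (S n) (S n)) (homZ_X_pderiv a.1 a.2)
  obtain ⟨Y, hY, hYl⟩ := Ext.fam hθ (by omega) hG
  obtain ⟨W, hW, hWc⟩ := hS.chain (by omega) hY
    (ha.toJ (J1_le_iX F hP hGM hD) (iX_le_J1 F hc hGM hD)) (by
      have := hb.toJ (J2_le_iX F hS hc hGM) (iX_le_J2 F hS hc hGM hD)
      rwa [show (0 : ℤ) + (2 * (m - F.m) + (2 * F.m + c₁)) = c₁ + 2 * m by ring])
  obtain ⟨Q, Q', w, -, hS'⟩ := Pool.Agent.W615.structure_main hn hE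
  have hlift : ∀ u ∈ W, Pool.Agent.W615.LiftsTo E (Matrix.of fun s t => u (s, t)) := by
    intro u hu
    obtain ⟨θ', D, hθ', hD, hDM⟩ := hYl u (hWc u hu)
    obtain ⟨T, h1, h2, h3⟩ := hθ'.sections F hD hDM
    refine liftsTo_of (T := T) (fun m G hG => by simpa using h1 m G hG) h2 fun p G hG => ?_
    rw [h3 p G hG]
    congr 2
    rw [Fintype.sum_prod_type]
    refine Finset.sum_congr rfl fun s _ => ?_
    rw [Finset.mul_sum]
    refine Finset.sum_congr rfl fun t _ => ?_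
    show C (u (s, t)) * (X t * pderiv s p) = pderiv s p * (C (u (s, t)) * X t)
    ring
  have hW2 : Module.finrank ℂ W ≤ 2 := by
    let L : W →ₗ[ℂ] Matrix (Fin (n + 1)) (Fin (n + 1)) ℂ := {
      toFun := fun u => Matrix.of fun s t => (u : Fin (n + 1) × Fin (n + 1) → ℂ) (s, t)
      map_add' := fun u u' => rfl
      map_smul' := fun a u => rfl }
    refine finrank_le_two L (fun u u' huu => ?_) _ 1 fun u => hS' _ (hlift u u.2)
    apply Subtype.ext
    funext ⟨s, t⟩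
    exact congrFun (congrFun huu s) t
  have hU : Module.finrank ℂ (Fin (n + 1) × Fin (n + 1) → ℂ) = (n + 1) ^ 2 := by
    rw [Module.finrank_fintype_fun_eq_card, Fintype.card_prod, Fintype.card_fin, sq]
  rw [hU] at hW
  omega

/-- the second inequality -/
theorem sec2 (hn : 4 ≤ n) (hE : ¬ E.Splits) {c₁ : ℤ} {P : Fin E.a → Fin E.a → S n}
    (hP : C1P E c₁ P) {m : ℤ} {G₀ : Vec E} (hG₀ : E.IsSection m G₀) (hc : Cod2 E G₀) {a b : ℕ}
    (ha : H1LeI (iX G₀) (-1) a) (hb : H1LeI (iX G₀ ^ 2) (c₁ + 2 * m - 1) b) :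
    n + 1 ≤ a + b := by
  classical
  obtain ⟨F⟩ := exists_frm (by omega) E
  let K := FractionRing (S n)
  obtain ⟨ω, hS, hD⟩ := sx_of (K := K) (by omega) F hP hG₀ hc
  have hGM := mem_Mp_of_section hG₀
  have hG := F.geo (K := K) (by omega)
  choose θ hθ using fun a : Fin (n + 1) =>
    exists_ext K (pderiv a : Derivation ℂ (S n) (S n)) (homZ_pderiv a)
  obtain ⟨Y, hY, hYl⟩ := Ext.fam hθ (by omega) hG
  obtain ⟨W, hW, hWc⟩ := hS.chain (by omega) hY
    (ha.toJ (J1_le_iX F hP hGM hD) (iX_le_J1 F hc hGM hD)) (by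
      have := hb.toJ (J2_le_iX F hS hc hGM) (iX_le_J2 F hS hc hGM hD)
      rwa [show (-1 : ℤ) + (2 * (m - F.m) + (2 * F.m + c₁)) = c₁ + 2 * m - 1 by ring])
  obtain ⟨Q, Q', w, -, hS'⟩ := Pool.Agent.W615.structure_main hn hE
  have hW0 : W = ⊥ := by
    rw [eq_bot_iff]
    intro u hu
    rw [Submodule.mem_bot]
    by_contra hu0
    obtain ⟨s₀, hs₀⟩ := Function.ne_iff.1 hu0
    obtain ⟨θ', D, hθ', hD, hDM⟩ := hYl u (hWc u hu)
    obtain ⟨T, h1, h2, h3⟩ := hθ'.sections F hD hDM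
    have hlift : ∀ v : Fin (n + 1) → ℂ,
        Pool.Agent.W615.LiftsTo E (Matrix.of fun s t => u s * v t) := by
      intro v
      let l : S n := ∑ t, C (v t) * X t
      have hl : HomZ l ((1 : ℕ) : ℤ) := by
        refine homZ_sum _ fun t => ?_
        have := homZ_mul (Or.inr ⟨0, rfl, isHomogeneous_C _ (v t)⟩ : HomZ (C (v t) : S n) ((0 : ℕ) : ℤ))
          (Or.inr ⟨1, rfl, isHomogeneous_X ℂ t⟩ : HomZ (X t : S n) ((1 : ℕ) : ℤ))
        simpa using this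
      refine liftsTo_of (T := fun G => l • T G) (fun m G hG => ?_) (fun G G' hG hG' => ?_)
        fun p G hG => ?_
      · have := smul_section (h1 m G hG) hl
        simpa using this
      · rw [h2 G G' hG hG', smul_add]
      · rw [h3 p G hG, smul_add, smul_smul, smul_comm l p]
        congr 2
        rw [Finset.mul_sum]
        refine Finset.sum_congr rfl fun s _ => ?_
        show (∑ t, C (v t) * X t) * (C (u s) * pderiv s p) =
          pderiv s p * ∑ t, C (u s * v t) * X t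
        rw [Finset.sum_mul, Finset.mul_sum]
        refine Finset.sum_congr rfl fun t _ => ?_
        rw [MvPolynomial.C_mul]
        ring
    let L : (Fin (n + 1) → ℂ) →ₗ[ℂ] Matrix (Fin (n + 1)) (Fin (n + 1)) ℂ := {
      toFun := fun v => Matrix.of fun s t => u s * v t
      map_add' := fun v v' => by
        refine Matrix.ext fun s t => ?_
        show u s * (v t + v' t) = u s * v t + u s * v' t
        ring
      map_smul' := fun a v => by
        refine Matrix.ext fun s t => ?_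
        show u s * (a * v t) = a * (u s * v t)
        ring }
    have := finrank_le_two L (fun v v' hvv => ?_) _ 1 fun v => hS' _ (hlift v)
    · rw [Module.finrank_fintype_fun_eq_card, Fintype.card_fin] at this
      omega
    · funext t
      have h5 : u s₀ * v t = u s₀ * v' t := congrFun (congrFun hvv s₀) t
      exact mul_left_cancel₀ hs₀ h5
  rw [hW0, finrank_bot, zero_add, Module.finrank_fintype_fun_eq_card, Fintype.card_fin] at hW
  exact hW

end Pool.Agent.K6.H64.VB
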