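import Pool.Agent.K6.H64.VC.SecMain
import Pool.Agent.W467.FG.F

/-! Nonsingular zero schemes of sections (helper64). -/

set_option autoImplicit false
set_option linter.all false

open MvPolynomial H960VB Matrix
open Pool.Agent.W467.FX (ZS cone grad conormal Lam eval_Lam grad_mul_of_zero)

namespace Pool.Agent.K6.H64.VB

variable {n : ℕ} {E : Bundle2 n} {s : Vec E} {I : Ideal (S n)}

theorem ker_of_section {m : ℤ} {G : Vec E} (h : E.IsSection m G) : H938TB.Ker E G :=
  (Pool.Agent.W615.sec_of_isSection h).ker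

/-- the gradients of two functions with a common prime factor which vanishes at `x` -/
theorem lam_zero_of_dvd {f g π : S n} {x : Fin (n + 1) → ℂ} (h0 : eval x π = 0) (hf : π ∣ f)
    (hg : π ∣ g) (i j : Fin (n + 1)) : eval x (Lam f g i j) = 0 := by
  obtain ⟨f', rfl⟩ := hf
  obtain ⟨g', rfl⟩ := hg
  rw [eval_Lam, mul_comm π f', mul_comm π g', grad_mul_of_zero h0, grad_mul_of_zero h0,
    grad_mul_of_zero h0, grad_mul_of_zero h0]
  ring

/-- a nonsingular divisor is irreducible in the local ring -/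
theorem exists_prime_factor {u : S n} {x : Fin (n + 1) → ℂ} (hu0 : u ≠ 0) (hu : eval x u = 0)
    (hd : ∃ i, grad u x i ≠ 0) :
    ∃ π g : S n, Prime π ∧ eval x π = 0 ∧ eval x g ≠ 0 ∧ u = g * π := by
  classical
  have hex : ∃ π : S n, Irreducible π ∧ π ∣ u ∧ eval x π = 0 := by
    by_contra hc
    push Not at hc
    have key : ∀ v : S n, v ∣ u → v ≠ 0 → eval x v ≠ 0 := by
      intro v
      refine WfDvdMonoid.induction_on_irreducible v ?_ ?_ ?_
      · intro _ h; exact absurd rfl h
      · intro w hw _ _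
        exact fun h => by
          obtain ⟨w', hw'⟩ := hw.exists_right_inv
          have := congrArg (eval x) hw'
          rw [map_mul, h, zero_mul, map_one] at this
          exact zero_ne_one this
      · intro a p ha hp ih hd' _
        rw [map_mul]
        exact mul_ne_zero (hc p hp (dvd_trans (dvd_mul_right _ _) hd'))
          (ih (dvd_trans (dvd_mul_left _ _) hd') ha)
    exact key u dvd_rfl hu0 hu
  obtain ⟨π, hπ, ⟨g, hg⟩, hπ0⟩ := hex
  refine ⟨π, g, UniqueFactorizationMonoid.irreducible_iff_prime.1 hπ, hπ0, fun hg0 => ?_,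
    by rw [hg, mul_comm]⟩
  obtain ⟨i, hi⟩ := hd
  apply hi
  rw [hg, grad_mul_of_zero hg0, hπ0, zero_mul]

theorem cod2_of_smooth (hn : 1 ≤ n) (Z : ZS E s I) : Cod2 E s := by
  classical
  intro x hx
  obtain ⟨m, m', G, G', i, j, hG, hG', hw⟩ := exists_local hn E x hx
  refine ⟨m, m', G, G', i, j, hG, hG', hw, ?_⟩
  obtain ⟨W⟩ := H938TB.exists_wedge hn (Pool.Agent.W615.triv E)
  have kG := ker_of_section hG
  have kG' := ker_of_section hG'
  have ks := Z.sec.ker
  have ew : wedge G G' i j = W.wd G G' * W.P i j := W.eq G G' kG kG' i j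
  have eu : wedge s G' i j = W.wd s G' * W.P i j := W.eq s G' ks kG' i j
  have ev : wedge G s i j = -(W.wd s G) * W.P i j := by
    have := W.eq s G ks kG i j
    unfold wedge
    linear_combination -this
  have hP : eval x (W.P i j) ≠ 0 := by
    rw [ew, map_mul] at hw; exact right_ne_zero_of_mul hw
  have hwd : eval x (W.wd G G') ≠ 0 := by
    rw [ew, map_mul] at hw; exact left_ne_zero_of_mul hw
  by_cases h1 : eval x (wedge s G' i j) ≠ 0 ∨ eval x (wedge G s i j) ≠ 0
  · exact Or.inl h1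
  push Not at h1
  obtain ⟨h1, h2⟩ := h1
  right
  have hu : eval x (W.wd s G') = 0 := by
    rw [eu, map_mul] at h1; exact (mul_eq_zero.1 h1).resolve_right hP
  have hv : eval x (W.wd s G) = 0 := by
    rw [ev, map_mul, map_neg] at h2
    exact neg_eq_zero.1 ((mul_eq_zero.1 h2).resolve_right hP)
  have hxc : x ∈ cone I := by
    apply Z.mem_cone hx
    funext k
    show eval x (s k) = 0
    have h3 := congrArg (eval x) (W.three s G G' ks kG kG' k)
    rw [map_add, map_sub, map_mul, map_mul, map_mul, hu, hv, zero_mul, zero_mul,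
      sub_zero, add_zero, map_zero] at h3
    exact (mul_eq_zero.1 h3).resolve_left hwd
  obtain ⟨k, l, hkl⟩ := Z.exists_minor W kG kG' hxc hx hwd
  have hu0 : W.wd s G' ≠ 0 := by
    intro h
    apply hkl
    rw [h]
    unfold Lam
    rw [map_zero, map_zero, mul_zero, mul_zero, sub_zero, map_zero]
  have hgr : ∃ i, grad (W.wd s G') x i ≠ 0 := by
    by_contra hc
    push Not at hc
    apply hkl
    rw [eval_Lam, hc, hc]
    ring
  obtain ⟨π, g, hπ, hπ0, hg0, hug⟩ := exists_prime_factor hu0 hu hgr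
  have hP0 : W.P i j ≠ 0 := am_eval_ne hP
  rw [eu, ev]
  refine ⟨mul_ne_zero hu0 hP0, ?_⟩
  rintro p ⟨h, hh, hm⟩
  rw [Ideal.mem_span_singleton'] at hm
  obtain ⟨q, hq⟩ := hm
  have h3 : π ∣ h * (W.wd s G * p) := by
    refine ⟨-(q * g), ?_⟩
    apply mul_right_cancel₀ hP0
    have : q * (W.wd s G' * W.P i j) = h * (-(W.wd s G) * W.P i j * p) := hq
    rw [hug] at this
    linear_combination this
  rcases hπ.dvd_or_dvd h3 with h4 | h4
  · exfalso
    obtain ⟨h', rfl⟩ := h4
    rw [map_mul, hπ0, zero_mul] at hh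
    exact hh rfl
  rcases hπ.dvd_or_dvd h4 with h5 | ⟨r, hr⟩
  · exfalso
    apply hkl
    exact lam_zero_of_dvd hπ0 h5 ⟨g, by rw [hug, mul_comm]⟩ k l
  · refine ⟨g * W.P i j, by rw [map_mul]; exact mul_ne_zero hg0 hP, ?_⟩
    rw [Ideal.mem_span_singleton']
    refine ⟨r, ?_⟩
    rw [hug, hr]
    ring

/-- the first Chern class from a line -/
theorem c1P_of_line (hn : 1 ≤ n) {P Q : Fin (n + 1) → ℂ} (hPQ : LinearIndependent ℂ ![P, Q])
    {p q : ℤ} (hs : E.SplitsOn P Q p q) : ∃ P', C1P E (p + q) P' := by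
  obtain ⟨W⟩ := H938TB.exists_wedge hn (Pool.Agent.W615.triv E)
  have hκ := Pool.Agent.W467.FX.kappa_of_line W hPQ hs
  obtain ⟨m, m', G, G', i₀, j₀, hG, hG', hw⟩ := exists_local hn E (fun _ => 1) (by
    intro h
    have := congrFun h 0
    simp at this)
  have kG := ker_of_section hG
  have kG' := ker_of_section hG'
  have hwd : W.wd G G' ≠ 0 := by
    intro h0
    apply hw
    have : wedge G G' i₀ j₀ = W.wd G G' * W.P i₀ j₀ := W.eq G G' kG kG' i₀ j₀
    rw [this, h0, zero_mul, map_zero]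
  have hh := Pool.Agent.W615.wd_homZ W (Pool.Agent.W615.sec_of_isSection hG)
    (Pool.Agent.W615.sec_of_isSection hG')
  obtain ⟨d, hd, hdh⟩ := hh.resolve_left hwd
  refine ⟨W.P, fun i j => ?_, W.P_ne, fun m m' G G' h h' =>
    ⟨W.wd G G', fun i j => W.eq G G' (ker_of_section h) (ker_of_section h') i j⟩⟩
  refine homZ_of_mul hwd hdh ?_
  have e : wedge G G' i j = W.wd G G' * W.P i j := W.eq G G' kG kG' i j
  rw [mul_comm, ← e]
  have := hm_wedge hG hG' i j
  rwa [show E.β i + E.β j - (p + q) + (d : ℤ) = E.β i + E.β j + m + m' by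
    rw [hd, ← hκ]; ring]

end Pool.Agent.K6.H64.VB
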